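import Pool.Agent.P.MP_74dd9d_nt.Sieve

/-! Mertens type estimates. -/

namespace Pool.Agent.P.MP_74dd9d_nt

open Finset ArithmeticFunction
open scoped ArithmeticFunction.zeta

/-- Primes up to `exp t`. -/
noncomputable def Pr (t : ℝ) : Finset ℕ := Nat.primesLE ⌊Real.exp t⌋₊

/-- Sum of reciprocals of primes up to `exp t`. -/
noncomputable def SS (t : ℝ) : ℝ := ∑ q ∈ Pr t, 1 / (q : ℝ)

lemma mem_Pr {t : ℝ} {q : ℕ} : q ∈ Pr t ↔ (q : ℝ) ≤ Real.exp t ∧ q.Prime := by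
  rw [Pr, Nat.mem_primesLE, Nat.le_floor_iff (Real.exp_pos t).le]

lemma mertens_nat (y : ℕ) (hy : 0 < y) : ∑ n ∈ Ioc 0 y, Λ n / n ≤ Real.log y + 6 := by
  have hy' : (0 : ℝ) < y := by exact_mod_cast hy
  have h0 : ∑ n ∈ Ioc 0 y, Λ n ≤ 6 * y := by
    have h := Chebyshev.psi_le_const_mul_self (x := y) (by positivity)
    have h2 : Real.log 4 ≤ 2 := by
      have := Real.log_two_lt_d9
      rw [show (4 : ℝ) = 2 ^ 2 by norm_num, Real.log_pow]; push_cast; linarith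
    unfold Chebyshev.psi at h
    rw [Nat.floor_natCast] at h
    nlinarith
  have h1 : y * ∑ n ∈ Ioc 0 y, Λ n / n ≤ ∑ n ∈ Ioc 0 y, (Λ * ζ : ArithmeticFunction ℝ) n +
      ∑ n ∈ Ioc 0 y, Λ n := by
    rw [sum_Ioc_mul_zeta_eq_sum, ← sum_add_distrib, mul_sum]
    refine sum_le_sum fun n hn => ?_
    have hn0 : 0 < n := (mem_Ioc.1 hn).1
    have hn' : (0 : ℝ) < n := by exact_mod_cast hn0
    have h1 : (y : ℝ) / n ≤ ((y / n : ℕ) : ℝ) + 1 := by
      rw [div_le_iff₀ hn']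
      have := Nat.lt_div_mul_add (a := y) hn0
      have h2 : y ≤ (y / n + 1) * n := by nlinarith
      exact_mod_cast h2
    have := mul_le_mul_of_nonneg_left h1 (vonMangoldt_nonneg (n := n))
    calc (y : ℝ) * (Λ n / n) = Λ n * (y / n) := by ring
      _ ≤ _ := this
      _ = _ := by ring
  rw [vonMangoldt_mul_zeta] at h1
  have h2 : ∑ n ∈ Ioc 0 y, ArithmeticFunction.log n ≤ y * Real.log y := by
    have : ∀ n ∈ Ioc 0 y, ArithmeticFunction.log n ≤ Real.log y := fun n hn => by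
      obtain ⟨h0, h1⟩ := mem_Ioc.1 hn
      exact Real.log_le_log (by exact_mod_cast h0) (by exact_mod_cast h1)
    simpa using sum_le_sum this
  nlinarith

lemma mertens1 {t : ℝ} (ht : 0 ≤ t) {P : Finset ℕ} (hP : P ⊆ Pr t) :
    ∑ q ∈ P, Real.log q / q ≤ t + 6 := by
  have h0 : 0 < ⌊Real.exp t⌋₊ := Nat.floor_pos.2 (Real.one_le_exp ht)
  have h1 := mertens_nat _ h0
  have h2 : Real.log ⌊Real.exp t⌋₊ ≤ t := by
    rw [Real.log_le_iff_le_exp (by exact_mod_cast h0)]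
    exact Nat.floor_le (Real.exp_pos t).le
  have h3 : ∑ q ∈ P, Real.log q / q = ∑ q ∈ P, Λ q / q :=
    sum_congr rfl fun q hq => by rw [vonMangoldt_apply_prime (mem_Pr.1 (hP hq)).2]
  have h4 : ∑ q ∈ P, Λ q / q ≤ ∑ n ∈ Ioc 0 ⌊Real.exp t⌋₊, Λ n / n := by
    refine sum_le_sum_of_subset_of_nonneg (fun q hq => ?_) fun n _ _ =>
      div_nonneg vonMangoldt_nonneg (by positivity)
    have := Nat.mem_primesLE.1 (hP hq)
    exact mem_Ioc.2 ⟨this.2.pos, this.1⟩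
  linarith

lemma sum_inv_sq_Icc (N : ℕ) : ∑ k ∈ Icc 1 N, ((k : ℝ) ^ 2)⁻¹ ≤ 2 := by
  have h1 : Icc 1 N ⊆ insert 1 (Ioc 1 (N + 1)) := by
    intro k hk
    simp only [mem_insert, mem_Icc, mem_Ioc] at hk ⊢
    omega
  have h2 := sum_le_sum_of_subset_of_nonneg (f := fun k : ℕ => ((k : ℝ) ^ 2)⁻¹) h1
    fun _ _ _ => by positivity
  rw [sum_insert (by simp)] at h2
  have h3 := sum_Ioc_inv_sq_le_sub (α := ℝ) (k := 1) (n := N + 1) (by norm_num) (by omega)
  have h4 : (0 : ℝ) ≤ ((N + 1 : ℕ) : ℝ)⁻¹ := by positivity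
  simp only [Nat.cast_one, one_pow, inv_one] at h2 h3
  linarith

lemma SS_lower (t : ℝ) : t / 2 ≤ Real.exp (SS t) := by
  set N := ⌊Real.exp t⌋₊ with hN
  have h1 : t ≤ Real.log (N + 1 : ℕ) := by
    rw [Real.le_log_iff_exp_le (by positivity)]
    push_cast
    exact (Nat.lt_floor_add_one _).le
  have h2 := log_add_one_le_harmonic N
  rw [harmonic_eq_sum_Icc] at h2
  push_cast at h2 h1
  set f : Finset ℕ × ℕ → ℕ := fun z => z.2 ^ 2 * ∏ q ∈ z.1, q with hf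
  have h3 : Icc 1 N ⊆ image f ((Pr t).powerset ×ˢ Icc 1 N) := by
    intro n hn
    obtain ⟨n1, n2⟩ := mem_Icc.1 hn
    obtain ⟨a, b, ha, hb, hab, hs⟩ := Nat.sq_mul_squarefree_of_pos n1
    refine mem_image.2 ⟨(a.primeFactors, b), ?_, ?_⟩
    · simp only [mem_product, mem_powerset, mem_Icc]
      refine ⟨fun q hq => Nat.mem_primesLE.2 ⟨?_, Nat.prime_of_mem_primeFactors hq⟩, hb, ?_⟩
      · have := Nat.le_of_mem_primeFactors hq
        have : a ≤ n := by rw [← hab]; exact Nat.le_mul_of_pos_left _ (by positivity)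
        omega
      · nlinarith
    · simp only [hf, Nat.prod_primeFactors_of_squarefree hs, hab]
  have h4 : ∑ n ∈ Icc 1 N, ((n : ℝ))⁻¹ ≤ ∑ z ∈ (Pr t).powerset ×ˢ Icc 1 N, ((f z : ℕ) : ℝ)⁻¹ :=
    (sum_le_sum_of_subset_of_nonneg h3 fun _ _ _ => by positivity).trans
      (sum_image_le_of_nonneg fun _ _ => by positivity)
  have h5 : ∑ z ∈ (Pr t).powerset ×ˢ Icc 1 N, ((f z : ℕ) : ℝ)⁻¹ =
      (∏ q ∈ Pr t, (1 + 1 / (q : ℝ))) * ∑ k ∈ Icc 1 N, ((k : ℝ) ^ 2)⁻¹ := by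
    rw [prod_one_add, sum_mul_sum, sum_product]
    refine sum_congr rfl fun d _ => sum_congr rfl fun k _ => ?_
    simp only [hf]
    push_cast
    simp only [one_div, prod_inv_distrib, mul_inv]
    ring
  have h6 : ∏ q ∈ Pr t, (1 + 1 / (q : ℝ)) ≤ Real.exp (SS t) := by
    rw [SS, Real.exp_sum]
    refine prod_le_prod (fun q _ => by positivity) fun q _ => ?_
    rw [add_comm]; exact Real.add_one_le_exp _
  have h7 := mul_le_mul h6 (sum_inv_sq_Icc N) (sum_nonneg fun _ _ => by positivity)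
    (Real.exp_pos _).le
  linarith

lemma SS_upper {t : ℝ} (ht : 1 ≤ t) : Real.exp (SS t) ≤ 300 * t := by
  have hP : ∀ q ∈ Pr t, q.Prime := fun q hq => (mem_Pr.1 hq).2
  have h0 := mertens1 (by linarith : 0 ≤ t) (subset_refl _)
  have h1 := markov hP (D := Real.exp (2 * (t + 6))) (Real.one_lt_exp_iff.2 (by linarith))
    (h := fun q => 1 / (q : ℝ)) (fun q _ => by positivity) (by
      rw [Real.log_exp]
      have : ∑ q ∈ Pr t, 1 / (q : ℝ) * Real.log q = ∑ q ∈ Pr t, Real.log q / q :=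
        sum_congr rfl fun q _ => by ring
      linarith)
  set D := Real.exp (2 * (t + 6)) with hD
  have h2 : GG (Pr t) D (fun q => 1 / (q : ℝ)) ≤ ∑ n ∈ Icc 1 ⌊D⌋₊, ((n : ℝ))⁻¹ := by
    have e2 : Set.InjOn (fun d : Finset ℕ => ∏ q ∈ d, q) (DD (Pr t) D) := by
      intro d hd e he hde
      have h1 := Nat.primeFactors_prod (s := d) fun q hq => hP q ((mem_DD.1 hd).1 hq)
      have h2 := Nat.primeFactors_prod (s := e) fun q hq => hP q ((mem_DD.1 he).1 hq)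
      simp only at hde
      rw [← h1, ← h2, hde]
    have e1 : GG (Pr t) D (fun q => 1 / (q : ℝ)) =
        ∑ d ∈ DD (Pr t) D, (((∏ q ∈ d, q : ℕ) : ℝ))⁻¹ :=
      sum_congr rfl fun d _ => by simp
    rw [e1, ← sum_image (f := fun n : ℕ => ((n : ℝ))⁻¹) e2]
    refine sum_le_sum_of_subset_of_nonneg (fun n hn => ?_) fun _ _ _ => by positivity
    obtain ⟨d, hd, rfl⟩ := mem_image.1 hn
    obtain ⟨h1, h2⟩ := mem_DD.1 hd
    exact mem_Icc.2 ⟨prod_pos fun q hq => (hP q (h1 hq)).pos, Nat.le_floor h2⟩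
  have h3 := harmonic_floor_le_one_add_log D (Real.one_le_exp (by linarith))
  rw [harmonic_eq_sum_Icc, hD, Real.log_exp, ← hD] at h3
  push_cast at h3
  have h4 : ∑ q ∈ Pr t, (1 / (q : ℝ)) ^ 2 ≤ 2 := by
    refine le_trans ?_ (sum_inv_sq_Icc ⌊Real.exp t⌋₊)
    simp only [one_div, inv_pow]
    refine sum_le_sum_of_subset_of_nonneg (fun q hq => ?_) fun _ _ _ => by positivity
    have := Nat.mem_primesLE.1 hq
    exact mem_Icc.2 ⟨this.2.pos, this.1⟩
  have h5 : Real.exp (SS t - 2) ≤ ∏ q ∈ Pr t, (1 + 1 / (q : ℝ)) := by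
    calc Real.exp (SS t - 2) ≤ Real.exp (∑ q ∈ Pr t, (1 / (q : ℝ) - (1 / (q : ℝ)) ^ 2)) := by
          rw [sum_sub_distrib]; exact Real.exp_le_exp.2 (by rw [SS]; linarith)
      _ = ∏ q ∈ Pr t, Real.exp (1 / (q : ℝ) - (1 / (q : ℝ)) ^ 2) := Real.exp_sum _ _
      _ ≤ _ := by
          refine prod_le_prod (fun q _ => (Real.exp_pos _).le) fun q hq => ?_
          have a1 : (0 : ℝ) ≤ 1 / q := by positivity
          generalize 1 / (q : ℝ) = w at *
          have a3 : 1 - (1 + w)⁻¹ ≤ Real.log (1 + w) :=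
            Real.one_sub_inv_le_log_of_pos (by linarith)
          have a4 : w - w ^ 2 ≤ 1 - (1 + w)⁻¹ := by
            have : 1 - (1 + w)⁻¹ = w / (1 + w) := by field_simp; ring
            rw [this, le_div_iff₀ (by linarith)]
            nlinarith [mul_nonneg a1 (sq_nonneg w)]
          calc Real.exp (w - w ^ 2) ≤ Real.exp (Real.log (1 + w)) := Real.exp_le_exp.2 (a4.trans a3)
            _ = 1 + w := Real.exp_log (by linarith)
  have h6 : Real.exp 2 ≤ 10 := by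
    have := Real.exp_one_lt_d9
    rw [show (2 : ℝ) = 1 + 1 by norm_num, Real.exp_add]
    nlinarith [Real.exp_pos 1]
  have h7 : Real.exp (SS t) = Real.exp 2 * Real.exp (SS t - 2) := by
    rw [← Real.exp_add]; congr 1; ring
  have h8 : Real.exp (SS t - 2) ≤ 30 * t := by linarith
  rw [h7]
  nlinarith [Real.exp_pos (SS t - 2)]

end Pool.Agent.P.MP_74dd9d_nt
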