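import Pool.Agent.P.MP_74dd9d_nt.Sieve

/-! The sieve in terms of excluded residue sets. -/

namespace Pool.Agent.P.MP_74dd9d_nt

open Finset

lemma GG_lower {P : Finset ℕ} (hP : ∀ q ∈ P, q.Prime) {T : ℝ} (hT : 0 < T) {g w : ℕ → ℝ}
    (hg : ∀ q ∈ P, 0 ≤ w q ∧ w q ≤ g q ∧ g q ≤ 4 / q ∧ 8 ≤ q)
    (hM : 16 * ∑ q ∈ P, Real.log q / q ≤ T) :
    Real.exp (∑ q ∈ P, w q - 3) ≤ 2 * GG P (Real.exp T) fun q => g q / (1 - g q) := by
  have hb : ∀ q ∈ P, g q ≤ 1 / 2 := by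
    intro q hq
    obtain ⟨-, -, h3, h4⟩ := hg q hq
    have h5 : (8 : ℝ) ≤ q := by exact_mod_cast h4
    refine h3.trans ?_
    rw [div_le_div_iff₀ (by linarith) (by norm_num)]; linarith
  have h1 : ∀ q ∈ P, g q ≤ g q / (1 - g q) ∧ g q / (1 - g q) ≤ 2 * g q := by
    intro q hq
    have h2 := hb q hq
    have h3 : 0 ≤ g q := (hg q hq).1.trans (hg q hq).2.1
    have h4 : 0 < 1 - g q := by linarith
    rw [le_div_iff₀ h4, div_le_iff₀ h4]
    constructor <;> nlinarith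
  refine le_trans ?_ (markov hP (Real.one_lt_exp_iff.2 hT)
    (fun q hq => ((hg q hq).1.trans (hg q hq).2.1).trans (h1 q hq).1) ?_)
  · have h2 : ∑ q ∈ P, w q ^ 2 ≤ 3 := by
      have h3 : ∑ q ∈ P, w q ^ 2 ≤ ∑ q ∈ P, 16 * ((q : ℝ) ^ 2)⁻¹ := by
        refine sum_le_sum fun q hq => ?_
        obtain ⟨a1, a2, a3, -⟩ := hg q hq
        have := pow_le_pow_left₀ a1 (a2.trans a3) 2
        rw [div_pow] at this
        rw [← div_eq_mul_inv]; linarith
      have h4 : ∑ q ∈ P, ((q : ℝ) ^ 2)⁻¹ ≤ ∑ q ∈ Ioc 7 (P.sup id + 7), ((q : ℝ) ^ 2)⁻¹ := by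
        refine sum_le_sum_of_subset_of_nonneg (fun q hq => ?_) fun _ _ _ => by positivity
        have := le_sup (f := id) hq
        have := (hg q hq).2.2.2
        simp only [id] at *
        rw [mem_Ioc]; omega
      have h5 := sum_Ioc_inv_sq_le_sub (α := ℝ) (k := 7) (n := P.sup id + 7) (by norm_num)
        (by omega)
      have h6 : (0 : ℝ) ≤ ((P.sup id + 7 : ℕ) : ℝ)⁻¹ := by positivity
      rw [← mul_sum] at h3
      have h7 : ((7 : ℕ) : ℝ)⁻¹ = 1 / 7 := by norm_num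
      linarith
    calc Real.exp (∑ q ∈ P, w q - 3) ≤ Real.exp (∑ q ∈ P, (w q - w q ^ 2)) := by
          rw [sum_sub_distrib]; exact Real.exp_le_exp.2 (by linarith)
      _ = ∏ q ∈ P, Real.exp (w q - w q ^ 2) := Real.exp_sum _ _
      _ ≤ _ := by
          refine prod_le_prod (fun q _ => (Real.exp_pos _).le) fun q hq => ?_
          have a1 := (hg q hq).1
          have a2 := (hg q hq).2.1.trans (h1 q hq).1
          have a3 : 1 - (1 + w q)⁻¹ ≤ Real.log (1 + w q) :=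
            Real.one_sub_inv_le_log_of_pos (by linarith)
          have a4 : w q - w q ^ 2 ≤ 1 - (1 + w q)⁻¹ := by
            have : 1 - (1 + w q)⁻¹ = w q / (1 + w q) := by field_simp; ring
            rw [this, le_div_iff₀ (by linarith)]
            nlinarith [mul_nonneg a1 (sq_nonneg (w q))]
          calc Real.exp (w q - w q ^ 2) ≤ Real.exp (Real.log (1 + w q)) :=
                Real.exp_le_exp.2 (a4.trans a3)
            _ = 1 + w q := Real.exp_log (by linarith)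
            _ ≤ _ := by linarith
  · rw [Real.log_exp]
    refine le_trans ?_ hM
    rw [mul_sum, mul_sum]
    refine sum_le_sum fun q hq => ?_
    have a1 := mul_le_mul_of_nonneg_right ((h1 q hq).2.trans
      (mul_le_mul_of_nonneg_left (hg q hq).2.2.1 (by norm_num))) (Real.log_natCast_nonneg q)
    calc _ ≤ 2 * (2 * (4 / q) * Real.log q) := by linarith
      _ = _ := by ring

lemma PM.affine {q : ℕ} {e : ℕ → ℝ} {γ : ℝ} (hq : 0 < q) (hp : ∀ a, e (a + q) = e a)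
    (h01 : ∀ a, 0 ≤ e a ∧ e a ≤ 1) (hs : ∑ a ∈ range q, e a = q * γ) {u v : ℝ}
    (hu : |u| ≤ 1) (hv : |v| ≤ 1) : PM q (fun a => u + (v - u) * e a) (u + (v - u) * γ) := by
  refine ⟨hq, fun a => by simp only [hp], fun a => ?_, ?_⟩
  · obtain ⟨h0, h1⟩ := h01 a
    rw [abs_le] at hu hv ⊢
    constructor <;> nlinarith
  · rw [sum_add_distrib, ← mul_sum, hs, sum_const, card_range, nsmul_eq_mul]; ring

open Classical in
/-- Indicator of a proposition. -/
noncomputable def ind (p : Prop) : ℝ := if p then 1 else 0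

lemma ind_01 (p : Prop) : 0 ≤ ind p ∧ ind p ≤ 1 := by
  unfold ind; split_ifs <;> norm_num

lemma ind_sq (p : Prop) (h : ℝ) : (h + (-1 - h) * ind p) ^ 2 = h ^ 2 + (1 - h ^ 2) * ind p := by
  unfold ind; split_ifs <;> ring

theorem sieve {P1 P2 : Finset ℕ} (hP1 : ∀ q ∈ P1, q.Prime) (hP2 : ∀ q ∈ P2, q.Prime)
    (hd : Disjoint P1 P2) {T1 T2 : ℝ} (hT1 : 0 < T1) (hT2 : 0 < T2) (E : ℕ → ℕ → ℕ → Prop)
    (hE1 : ∀ q a b, E q (a + q) b ↔ E q a b) (hE2 : ∀ q a b, E q a (b + q) ↔ E q a b)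
    (g w : ℕ → ℝ) (A B n : ℕ)
    (hg1 : ∀ q ∈ P1, 0 ≤ w q ∧ w q ≤ g q ∧ g q ≤ 4 / q ∧ 8 ≤ q)
    (hg2 : ∀ q ∈ P2, 0 ≤ w q ∧ w q ≤ g q ∧ g q ≤ 4 / q ∧ 8 ≤ q)
    (hM1 : 16 * ∑ q ∈ P1, Real.log q / q ≤ T1) (hM2 : 16 * ∑ q ∈ P2, Real.log q / q ≤ T2)
    (H1 : ∀ q ∈ P1, ∑ b ∈ range q, ∑ a ∈ range q, ind (E q a b) = q ^ 2 * g q)
    (H2 : ∀ q ∈ P2, ∀ i < n, ∑ a ∈ range q, ind (E q a (B + i)) = q * g q)
    (S : Finset (ℕ × ℕ)) (hS : ∀ z ∈ S, z.1 < A ∧ B ≤ z.2 ∧ z.2 < B + n ∧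
      (∀ q ∈ P1, ¬ E q z.1 z.2) ∧ ∀ q ∈ P2, ¬ E q z.1 z.2) :
    (S.card : ℝ) ≤ 4 * A * n * Real.exp (6 - ∑ q ∈ P1, w q - ∑ q ∈ P2, w q) +
      4 * A * Real.exp (4 * T1 + 3 - ∑ q ∈ P2, w q) + 2 * n * Real.exp (4 * T1 + 4 * T2) := by
  set h : ℕ → ℝ := fun q => g q / (1 - g q) with hh
  have hb : ∀ q : ℕ, (0 ≤ w q ∧ w q ≤ g q ∧ g q ≤ 4 / q ∧ 8 ≤ q) →
      0 ≤ h q ∧ |h q| ≤ 1 ∧ |h q ^ 2| ≤ 1 ∧ h q + (-1 - h q) * g q = 0 ∧
        h q ^ 2 + (1 - h q ^ 2) * g q = h q := by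
    rintro q ⟨h1, h2, h3, h4⟩
    have h5 : (8 : ℝ) ≤ q := by exact_mod_cast h4
    have h6 : g q ≤ 1 / 2 := by
      refine h3.trans ?_
      rw [div_le_div_iff₀ (by linarith) (by norm_num)]; linarith
    have h7 : 0 < 1 - g q := by linarith
    have h8 : 0 ≤ h q := div_nonneg (by linarith) h7.le
    have h9 : h q ≤ 1 := by rw [hh]; simp only; rw [div_le_one h7]; linarith
    have h10 : h q + (-1 - h q) * g q = 0 := by rw [hh]; simp only; field_simp; ring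
    refine ⟨h8, by rw [abs_of_nonneg h8]; exact h9, ?_, h10, ?_⟩
    · rw [abs_of_nonneg (by positivity)]; nlinarith
    · linear_combination (h q - 1) * h10
  have hind1 : ∀ q b a, ind (E q (a + q) b) = ind (E q a b) := fun q b a => by
    rw [propext (hE1 q a b)]
  have hind2 : ∀ q b a, ind (E q a (b + q)) = ind (E q a b) := fun q b a => by
    rw [propext (hE2 q a b)]
  have key := sieve_core hP1 hP2 hd (Real.exp_pos T1).le (Real.one_le_exp hT2.le)
    (fun q a b => h q + (-1 - h q) * ind (E q a b))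
    (fun q b => h q + (-1 - h q) * ((∑ a ∈ range q, ind (E q a b)) / q))
    (fun q b => h q ^ 2 + (1 - h q ^ 2) * ((∑ a ∈ range q, ind (E q a b)) / q)) h A B n
    (fun q hq b => ?_) (fun q hq => ?_) (fun q hq i hi => ?_) (fun q hq => (hb q (hg2 q hq)).1)
  rotate_left
  · obtain ⟨-, b2, b3, -, -⟩ := hb q (hg1 q hq)
    have hq0 := (hP1 q hq).pos
    have hq0' : (q : ℝ) ≠ 0 := by positivity
    simp only [ind_sq]
    exact ⟨PM.affine hq0 (hind1 q b) (fun a => ind_01 _) (by field_simp) b2 (by simp),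
      PM.affine hq0 (hind1 q b) (fun a => ind_01 _) (by field_simp) b3 (by simp)⟩
  · obtain ⟨-, b2, b3, b4, b5⟩ := hb q (hg1 q hq)
    have hq0 := (hP1 q hq).pos
    have hq0' : (0 : ℝ) < q := by positivity
    have e1 : ∀ b, (∑ a ∈ range q, ind (E q a (b + q))) / q =
        (∑ a ∈ range q, ind (E q a b)) / q := fun b => by simp only [hind2]
    have e2 : ∀ b, 0 ≤ (∑ a ∈ range q, ind (E q a b)) / q ∧
        (∑ a ∈ range q, ind (E q a b)) / q ≤ 1 := fun b => by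
      refine ⟨div_nonneg (sum_nonneg fun a _ => (ind_01 _).1) hq0'.le, ?_⟩
      rw [div_le_one hq0']
      simpa using sum_le_sum fun a (_ : a ∈ range q) => (ind_01 (E q a b)).2
    have e3 : ∑ b ∈ range q, (∑ a ∈ range q, ind (E q a b)) / q = q * g q := by
      rw [← sum_div, H1 q hq]; field_simp
    have p1 := PM.affine hq0 e1 e2 e3 b2 (v := -1) (by simp)
    have p2 := PM.affine hq0 e1 e2 e3 b3 (v := 1) (by simp)
    rw [b4] at p1
    rw [b5] at p2
    exact ⟨p1, p2⟩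
  · obtain ⟨-, b2, b3, b4, b5⟩ := hb q (hg2 q hq)
    have hq0 := (hP2 q hq).pos
    have p1 := PM.affine hq0 (hind1 q (B + i)) (fun a => ind_01 _) (H2 q hq i hi) b2
      (v := -1) (by simp)
    have p2 := PM.affine hq0 (hind1 q (B + i)) (fun a => ind_01 _) (H2 q hq i hi) b3
      (v := 1) (by simp)
    rw [b4] at p1
    rw [b5] at p2
    simp only [ind_sq]
    exact ⟨p1, p2⟩
  set G1 := GG P1 (Real.exp T1) h
  set G2 := GG P2 (Real.exp T2) h
  have g1 : 1 ≤ G1 := one_le_GG (Real.one_le_exp hT1.le) fun q hq => (hb q (hg1 q hq)).1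
  have g2 : 1 ≤ G2 := one_le_GG (Real.one_le_exp hT2.le) fun q hq => (hb q (hg2 q hq)).1
  have l1 : Real.exp (∑ q ∈ P1, w q - 3) ≤ 2 * G1 := GG_lower hP1 hT1 hg1 hM1
  have l2 : Real.exp (∑ q ∈ P2, w q - 3) ≤ 2 * G2 := GG_lower hP2 hT2 hg2 hM2
  have low : S.card * (G1 * G2) ^ 2 ≤ ∑ i ∈ range n, ∑ a ∈ range A,
      (GG P1 (Real.exp T1) (fun q => h q + (-1 - h q) * ind (E q a (B + i))) *
        GG P2 (Real.exp T2) fun q => h q + (-1 - h q) * ind (E q a (B + i))) ^ 2 := by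
    set F : ℕ × ℕ → ℝ := fun y =>
      (GG P1 (Real.exp T1) (fun q => h q + (-1 - h q) * ind (E q y.2 (B + y.1))) *
        GG P2 (Real.exp T2) fun q => h q + (-1 - h q) * ind (E q y.2 (B + y.1))) ^ 2 with hF
    have e1 : ∑ z ∈ S, (G1 * G2) ^ 2 = ∑ z ∈ S, F (z.2 - B, z.1) := by
      refine sum_congr rfl fun z hz => ?_
      obtain ⟨-, a2, -, a4, a5⟩ := hS z hz
      simp only [hF, Nat.add_sub_cancel' a2]
      congr 2
      · refine sum_congr rfl fun d hd => prod_congr rfl fun q hq => ?_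
        simp [ind, a4 q ((mem_DD.1 hd).1 hq)]
      · refine sum_congr rfl fun d hd => prod_congr rfl fun q hq => ?_
        simp [ind, a5 q ((mem_DD.1 hd).1 hq)]
    have e2 : Set.InjOn (fun z : ℕ × ℕ => (z.2 - B, z.1)) S := by
      intro z hz z' hz' e
      simp only [Prod.mk.injEq] at e
      have := (hS z hz).2.1
      have := (hS z' hz').2.1
      ext <;> omega
    rw [← nsmul_eq_mul, ← sum_const, e1, ← sum_image e2, ← sum_product' (f := fun i a => F (i, a))]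
    refine sum_le_sum_of_subset_of_nonneg ?_ fun _ _ _ => sq_nonneg _
    intro y hy
    obtain ⟨z, hz, rfl⟩ := mem_image.1 hy
    obtain ⟨a1, a2, a3, -⟩ := hS z hz
    simp only [mem_product, mem_range]
    omega
  have h1 := low.trans key
  have x1 : Real.exp T1 ^ 4 = Real.exp (4 * T1) := by rw [← Real.exp_nat_mul]; norm_num
  have x2 : Real.exp (4 * T1 + 4 * T2) = Real.exp (4 * T1) * Real.exp T2 ^ 4 := by
    rw [Real.exp_add, ← Real.exp_nat_mul]; norm_num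
  rw [x1] at h1
  set s1 := ∑ q ∈ P1, w q
  set s2 := ∑ q ∈ P2, w q
  have y1 : 1 ≤ 2 * G1 * Real.exp (3 - s1) := by
    have := mul_le_mul_of_nonneg_right l1 (Real.exp_pos (3 - s1)).le
    rwa [← Real.exp_add, show s1 - 3 + (3 - s1) = 0 by ring, Real.exp_zero] at this
  have y2 : 1 ≤ 2 * G2 * Real.exp (3 - s2) := by
    have := mul_le_mul_of_nonneg_right l2 (Real.exp_pos (3 - s2)).le
    rwa [← Real.exp_add, show s2 - 3 + (3 - s2) = 0 by ring, Real.exp_zero] at this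
  have x3 : Real.exp (6 - s1 - s2) = Real.exp (3 - s1) * Real.exp (3 - s2) := by
    rw [← Real.exp_add]; congr 1; ring
  have x4 : Real.exp (4 * T1 + 3 - s2) = Real.exp (4 * T1) * Real.exp (3 - s2) := by
    rw [← Real.exp_add]; congr 1; ring
  rw [x2, x3, x4]
  have p1 := Real.exp_pos (3 - s1)
  have p2 := Real.exp_pos (3 - s2)
  have p3 := Real.exp_pos (4 * T1)
  have p4 : 0 < Real.exp T2 ^ 4 := by positivity
  generalize Real.exp (3 - s1) = u1 at *
  generalize Real.exp (3 - s2) = u2 at *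
  generalize Real.exp (4 * T1) = v1 at *
  generalize Real.exp T2 ^ 4 = v2 at *
  have hG : 0 < (G1 * G2) ^ 2 := by positivity
  refine le_of_mul_le_mul_right (h1.trans ?_) hG
  have z1 : A * G2 * (n * G1) ≤ 4 * A * n * (u1 * u2) * (G1 * G2) ^ 2 := by
    have := mul_le_mul y1 y2 zero_le_one (by positivity)
    have := mul_le_mul_of_nonneg_left this (show 0 ≤ A * G2 * (n * G1) by positivity)
    linarith
  have z2 : A * G2 * (2 * v1) ≤ 4 * A * (v1 * u2) * (G1 * G2) ^ 2 := by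
    have h3 : 1 ≤ G1 ^ 2 := one_le_pow₀ g1
    have := mul_le_mul h3 y2 zero_le_one (by positivity)
    have := mul_le_mul_of_nonneg_left this (show 0 ≤ A * G2 * (2 * v1) by positivity)
    linarith
  have z3 : 2 * n * v1 * v2 ≤ 2 * n * (v1 * v2) * (G1 * G2) ^ 2 := by
    have h3 : 1 ≤ (G1 * G2) ^ 2 := one_le_pow₀ (one_le_mul_of_one_le_of_one_le g1 g2)
    have := mul_le_mul_of_nonneg_left h3 (show 0 ≤ 2 * n * v1 * v2 by positivity)
    linarith
  linarith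

end Pool.Agent.P.MP_74dd9d_nt
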