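import Mathlib

/-! Periodic bounded functions and their means. -/

namespace Pool.Agent.P.MP_74dd9d_nt

open Finset

/-- `f` has period `m`, is bounded by one and has mean `μ`. -/
def PM (m : ℕ) (f : ℕ → ℝ) (μ : ℝ) : Prop :=
  0 < m ∧ (∀ a, f (a + m) = f a) ∧ (∀ a, |f a| ≤ 1) ∧ ∑ a ∈ range m, f a = m * μ

lemma PM.shift {m : ℕ} {f : ℕ → ℝ} {μ : ℝ} (h : PM m f μ) (s : ℕ) :
    ∑ a ∈ range m, f (s + a) = m * μ := by
  induction s with
  | zero => simpa using h.2.2.2
  | succ s ih =>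
    have h1 := sum_range_succ (fun a => f (s + a)) m
    have h2 := sum_range_succ' (fun a => f (s + a)) m
    have h3 : ∑ a ∈ range m, f (s + 1 + a) = ∑ a ∈ range m, f (s + (a + 1)) :=
      sum_congr rfl fun a _ => by congr 1; ring
    rw [h3]
    have h4 := h.2.1 s
    simp only [add_zero] at h2
    linarith

lemma abs_sum_range_le {f : ℕ → ℝ} (h : ∀ a, |f a| ≤ 1) (n : ℕ) : |∑ a ∈ range n, f a| ≤ n := by
  calc |∑ a ∈ range n, f a| ≤ ∑ a ∈ range n, |f a| := abs_sum_le_sum_abs _ _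
    _ ≤ ∑ _a ∈ range n, (1 : ℝ) := sum_le_sum fun a _ => h a
    _ = n := by simp

lemma PM.abs_mean {m : ℕ} {f : ℕ → ℝ} {μ : ℝ} (h : PM m f μ) : |μ| ≤ 1 := by
  have h1 := abs_sum_range_le h.2.2.1 m
  have hm : (0 : ℝ) < m := by exact_mod_cast h.1
  rw [h.2.2.2, abs_mul, abs_of_pos hm] at h1
  nlinarith

lemma PM.approx {m : ℕ} {f : ℕ → ℝ} {μ : ℝ} (h : PM m f μ) (s A : ℕ) :
    ∑ a ∈ range A, f (s + a) ≤ A * μ + 2 * m := by
  induction A using Nat.strong_induction_on with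
  | _ A ih =>
    by_cases hA : A < m
    · have h1 := abs_sum_range_le (f := fun a => f (s + a)) (fun a => h.2.2.1 _) A
      have h2 := h.abs_mean
      have h3 : (A : ℝ) ≤ m := by exact_mod_cast hA.le
      have h4 : (0 : ℝ) ≤ A := by positivity
      rw [abs_le] at h1 h2
      nlinarith
    · obtain ⟨k, rfl⟩ := Nat.exists_eq_add_of_le' (not_lt.1 hA)
      have h1 := ih k (by have := h.1; omega)
      rw [sum_range_add]
      have h2 := h.shift (s + k)
      have h3 : ∑ x ∈ range m, f (s + (k + x)) = ∑ x ∈ range m, f (s + k + x) :=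
        sum_congr rfl fun a _ => by rw [add_assoc]
      rw [h3, h2]
      push_cast
      linarith

lemma PM.mod {m : ℕ} {f : ℕ → ℝ} {μ : ℝ} (h : PM m f μ) (a : ℕ) : f (a % m) = f a :=
  Function.Periodic.map_mod_nat (f := f) h.2.1 a

lemma PM.mul {m n : ℕ} {f g : ℕ → ℝ} {μ ν : ℝ} (hf : PM m f μ) (hg : PM n g ν)
    (hc : Nat.Coprime m n) : PM (m * n) (fun a => f a * g a) (μ * ν) := by
  refine ⟨Nat.mul_pos hf.1 hg.1, fun a => ?_, fun a => ?_, ?_⟩
  · have h1 : f (a + m * n) = f a := by rw [← hf.mod, Nat.add_mul_mod_self_left, hf.mod]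
    have h2 : g (a + m * n) = g a := by rw [← hg.mod, Nat.add_mul_mod_self_right, hg.mod]
    simp only [h1, h2]
  · rw [abs_mul]
    exact mul_le_one₀ (hf.2.2.1 a) (abs_nonneg _) (hg.2.2.1 a)
  · have h1 : ∑ a ∈ range (m * n), f a * g a = ∑ z ∈ range m ×ˢ range n, f z.1 * g z.2 := by
      refine sum_nbij (fun a => (a % m, a % n)) ?_ ?_ ?_ ?_
      · intro a _
        simp [Nat.mod_lt _ hf.1, Nat.mod_lt _ hg.1]
      · intro a ha b hb hab
        simp only [Prod.mk.injEq] at hab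
        have : a ≡ b [MOD m * n] := (Nat.modEq_and_modEq_iff_modEq_mul hc).1 hab
        simp only [coe_range, Set.mem_Iio] at ha hb
        exact Nat.ModEq.eq_of_lt_of_lt this ha hb
      · rintro ⟨r, s⟩ hz
        simp only [coe_product, coe_range, Set.mem_prod, Set.mem_Iio] at hz
        refine ⟨Nat.chineseRemainder hc r s, ?_, ?_⟩
        · simpa using Nat.chineseRemainder_lt_mul hc r s hf.1.ne' hg.1.ne'
        · have h2 := (Nat.chineseRemainder hc r s).2
          simp only [Prod.mk.injEq]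
          exact ⟨Eq.trans h2.1 (Nat.mod_eq_of_lt hz.1), Eq.trans h2.2 (Nat.mod_eq_of_lt hz.2)⟩
      · intro a _
        simp only [hf.mod, hg.mod]
    rw [h1, sum_product, ← sum_mul_sum, hf.2.2.2, hg.2.2.2]
    push_cast; ring

lemma PM.one : PM 1 (fun _ => 1) 1 := ⟨one_pos, fun _ => rfl, fun _ => by simp, by simp⟩

lemma PM.prod {S : Finset ℕ} (hS : ∀ q ∈ S, q.Prime) {f : ℕ → ℕ → ℝ} {μ : ℕ → ℝ}
    (h : ∀ q ∈ S, PM q (f q) (μ q)) :
    PM (∏ q ∈ S, q) (fun a => ∏ q ∈ S, f q a) (∏ q ∈ S, μ q) := by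
  induction S using Finset.induction_on with
  | empty => simpa using PM.one
  | insert q S hq ih =>
    simp only [prod_insert hq]
    refine (h q (mem_insert_self _ _)).mul
      (ih (fun r hr => hS r (mem_insert_of_mem hr)) fun r hr => h r (mem_insert_of_mem hr)) ?_
    refine Nat.Coprime.prod_right fun r hr => ?_
    exact (Nat.coprime_primes (hS q (mem_insert_self _ _)) (hS r (mem_insert_of_mem hr))).2
      fun e => hq (e ▸ hr)

/-- The product attached to a pair of sets of primes. -/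
noncomputable def pr (α β : ℕ → ℝ) (d d' : Finset ℕ) : ℝ :=
  ∏ q ∈ d ∪ d', if q ∈ d ∧ q ∈ d' then β q else α q

lemma pr_sq (φ : ℕ → ℝ) (d d' : Finset ℕ) :
    pr φ (fun q => φ q ^ 2) d d' = (∏ q ∈ d, φ q) * ∏ q ∈ d', φ q := by
  have h1 : ∏ q ∈ d, φ q = ∏ q ∈ d ∪ d', if q ∈ d then φ q else 1 := by
    rw [prod_ite_mem, inter_eq_right.2 subset_union_left]
  have h2 : ∏ q ∈ d', φ q = ∏ q ∈ d ∪ d', if q ∈ d' then φ q else 1 := by
    rw [prod_ite_mem, inter_eq_right.2 subset_union_right]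
  rw [h1, h2, ← prod_mul_distrib]
  refine prod_congr rfl fun q hq => ?_
  rw [mem_union] at hq
  by_cases ha : q ∈ d <;> by_cases hb : q ∈ d' <;> simp_all [sq]

lemma pr_orth (h : ℕ → ℝ) (d d' : Finset ℕ) :
    pr (fun _ => 0) h d d' = if d = d' then ∏ q ∈ d, h q else 0 := by
  split_ifs with e
  · subst e
    unfold pr
    rw [union_self]
    exact prod_congr rfl fun q hq => by simp [hq]
  · obtain ⟨q, hq⟩ : ∃ q, ¬ (q ∈ d ↔ q ∈ d') := by
      by_contra hcon
      push Not at hcon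
      exact e (Finset.ext hcon)
    refine prod_eq_zero (i := q) ?_ ?_
    · rw [mem_union]; tauto
    · rw [if_neg]; tauto

lemma PM.pair {d d' : Finset ℕ} (hS : ∀ q ∈ d ∪ d', q.Prime) {α β : ℕ → ℕ → ℝ} {μ ν : ℕ → ℝ}
    (hα : ∀ q ∈ d ∪ d', PM q (α q) (μ q)) (hβ : ∀ q ∈ d ∪ d', PM q (β q) (ν q)) :
    PM (∏ q ∈ d ∪ d', q) (fun a => pr (fun q => α q a) (fun q => β q a) d d') (pr μ ν d d') := by
  refine PM.prod (f := fun q a => if q ∈ d ∧ q ∈ d' then β q a else α q a) hS fun q hq => ?_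
  by_cases e : q ∈ d ∧ q ∈ d'
  · simpa [e] using hβ q hq
  · simpa [e] using hα q hq

end Pool.Agent.P.MP_74dd9d_nt
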