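import Pool.Agent.P.MP_74dd9d_nt.Sieve2

/-! Quadratic character sums and the density of the excluded sets. -/

namespace Pool.Agent.P.MP_74dd9d_nt

open Finset

section Field

variable {F : Type*} [Field F] [Fintype F] [DecidableEq F]

lemma chi_le_one (a : F) : quadraticChar F a ≤ 1 := by
  rcases quadraticChar_isQuadratic F a with h | h | h <;> rw [h] <;> norm_num

lemma neg_one_le_chi (a : F) : -1 ≤ quadraticChar F a := by
  rcases quadraticChar_isQuadratic F a with h | h | h <;> rw [h] <;> norm_num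

lemma J0 (hF : ringChar F ≠ 2) {e : F} (he : e ≠ 0) :
    ∑ t : F, quadraticChar F t * quadraticChar F (t + e) = -1 := by
  have h1 : ∑ t : F, quadraticChar F (1 + e * t⁻¹) = 0 := by
    rw [← quadraticChar_sum_zero hF]
    refine Fintype.sum_bijective (fun t => 1 + e * t⁻¹) ?_ _ _ fun _ => rfl
    refine Finite.injective_iff_bijective.1 fun s t h => ?_
    simpa [he] using h
  have h2 : ∀ t : F, quadraticChar F (1 + e * t⁻¹) =
      quadraticChar F t * quadraticChar F (t + e) + if t = 0 then 1 else 0 := by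
    intro t
    by_cases ht : t = 0
    · simp [ht]
    · rw [if_neg ht, add_zero, ← map_mul]
      have : t * (t + e) = t ^ 2 * (1 + e * t⁻¹) := by field_simp
      rw [this, map_mul, quadraticChar_sq_one' ht, one_mul]
  simp only [h2, sum_add_distrib, sum_ite_eq', mem_univ, if_true] at h1
  linarith

lemma Jsq (hF : ringChar F ≠ 2) (f : F → ℤ) :
    ∑ b : F, f (b ^ 2) = ∑ t : F, (quadraticChar F t + 1) * f t := by
  rw [← sum_fiberwise (g := fun b : F => b ^ 2)]
  refine sum_congr rfl fun t _ => ?_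
  rw [← quadraticChar_card_sqrts hF, sum_congr rfl (g := fun _ => f t)
    fun b hb => by rw [(mem_filter.1 hb).2]]
  simp

lemma sum_shift (hF : ringChar F ≠ 2) (e : F) : ∑ t : F, quadraticChar F (t + e) = 0 := by
  rw [← quadraticChar_sum_zero hF]
  exact Fintype.sum_equiv (Equiv.addRight e) _ _ fun _ => rfl

lemma J1 (hF : ringChar F ≠ 2) {e : F} (he : e ≠ 0) :
    ∑ b : F, quadraticChar F (b ^ 2 + e) = -1 := by
  rw [Jsq hF fun t => quadraticChar F (t + e)]
  simp only [add_mul, one_mul, sum_add_distrib, J0 hF he, sum_shift hF, add_zero]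

lemma Juv (hF : ringChar F ≠ 2) (u v : F) :
    ∑ D : F, quadraticChar F (u + D) * quadraticChar F (v + D) =
      (if u = v then (Fintype.card F : ℤ) else 0) - 1 := by
  have h1 : ∑ D : F, quadraticChar F (u + D) * quadraticChar F (v + D) =
      ∑ t : F, quadraticChar F t * quadraticChar F (t + (v - u)) :=
    Fintype.sum_equiv (Equiv.addLeft u) _ _ fun D => by
      simp only [Equiv.coe_addLeft]; congr 2; ring
  rw [h1]
  split_ifs with h
  · subst h
    have h2 : ∀ t : F, quadraticChar F t * quadraticChar F (t + (u - u)) =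
        1 - if t = 0 then 1 else 0 := by
      intro t
      by_cases ht : t = 0
      · simp [ht]
      · rw [sub_self, add_zero, ← sq, quadraticChar_sq_one ht, if_neg ht, sub_zero]
    simp only [h2, sum_sub_distrib, sum_ite_eq', mem_univ, if_true]
    simp
  · rw [J0 hF (sub_ne_zero.2 (Ne.symm h))]; simp

/-- Jacobsthal sum. -/
noncomputable def Jac (D : F) : ℤ := ∑ t : F, quadraticChar F t * quadraticChar F (t ^ 2 + D)

lemma Jac_scale (D : F) {k : F} (hk : k ≠ 0) : Jac (D * k ^ 2) ^ 2 = Jac D ^ 2 := by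
  have h1 : Jac (D * k ^ 2) = quadraticChar F k * Jac D := by
    unfold Jac
    rw [mul_sum]
    refine (Fintype.sum_equiv (Equiv.mulLeft₀ k hk) _ _ fun s => ?_).symm
    simp only [Equiv.mulLeft₀_apply]
    have : (k * s) ^ 2 + D * k ^ 2 = k ^ 2 * (s ^ 2 + D) := by ring
    rw [this, map_mul, map_mul, quadraticChar_sq_one' hk]; ring
  rw [h1, mul_pow, quadraticChar_sq_one hk, one_mul]

lemma Jac_moment (hF : ringChar F ≠ 2) :
    ∑ D : F, Jac D ^ 2 ≤ 2 * (Fintype.card F : ℤ) ^ 2 := by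
  have h1 : ∑ D : F, Jac D ^ 2 = ∑ t : F, ∑ s : F, quadraticChar F t * quadraticChar F s *
      ((if t ^ 2 = s ^ 2 then (Fintype.card F : ℤ) else 0) - 1) := by
    have e0 : ∀ D : F, Jac D ^ 2 = ∑ t : F, ∑ s : F,
        quadraticChar F t * quadraticChar F (t ^ 2 + D) *
          (quadraticChar F s * quadraticChar F (s ^ 2 + D)) := fun D => by
      rw [sq, Jac, sum_mul_sum]
    simp only [← Juv hF, e0, mul_sum]
    rw [sum_comm]
    refine sum_congr rfl fun t _ => ?_
    rw [sum_comm]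
    exact sum_congr rfl fun s _ => sum_congr rfl fun D _ => by ring
  have h2 : ∀ t : F, ∑ s : F, quadraticChar F t * quadraticChar F s *
      ((if t ^ 2 = s ^ 2 then (Fintype.card F : ℤ) else 0) - 1) ≤ 2 * Fintype.card F := by
    intro t
    simp only [mul_sub, sum_sub_distrib, mul_one, ← mul_sum, quadraticChar_sum_zero hF]
    have h3 : ∀ s : F, quadraticChar F t * quadraticChar F s *
        (if t ^ 2 = s ^ 2 then (Fintype.card F : ℤ) else 0) ≤
          (if s = t then (Fintype.card F : ℤ) else 0) +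
            if s = -t then (Fintype.card F : ℤ) else 0 := by
      intro s
      have h4 : quadraticChar F t * quadraticChar F s ≤ 1 := by rw [← map_mul]; exact chi_le_one _
      have h5 : (0 : ℤ) ≤ Fintype.card F := by positivity
      by_cases e : t ^ 2 = s ^ 2
      · rw [if_pos e]
        have h6 := mul_le_mul_of_nonneg_right h4 h5
        rcases sq_eq_sq_iff_eq_or_eq_neg.1 e.symm with e' | e' <;> rw [if_pos e'] <;>
          split_ifs <;> linarith
      · rw [if_neg e]; split_ifs <;> linarith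
    have := sum_le_sum fun s (_ : s ∈ univ) => h3 s
    simp only [sum_add_distrib, sum_ite_eq', mem_univ, if_true] at this
    linarith
  rw [h1]
  refine (sum_le_sum fun t _ => h2 t).trans (le_of_eq ?_)
  simp; ring

lemma Jac_bound (hF : ringChar F ≠ 2) :
    ((Fintype.card F : ℤ) - 1) * Jac (1 : F) ^ 2 ≤ 4 * (Fintype.card F : ℤ) ^ 2 := by
  have h1 := Jsq hF fun t : F => Jac t ^ 2
  have h2 : ∑ t : F, (quadraticChar F t + 1) * Jac t ^ 2 ≤ 2 * ∑ t : F, Jac t ^ 2 := by
    rw [mul_sum]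
    exact sum_le_sum fun t _ =>
      mul_le_mul_of_nonneg_right (by linarith [chi_le_one t]) (sq_nonneg _)
  have h3 : ∀ b : F, Jac (1 : F) ^ 2 - (if b = 0 then Jac (1 : F) ^ 2 else 0) ≤
      Jac (b ^ 2) ^ 2 := by
    intro b
    split_ifs with hb
    · rw [sub_self]; positivity
    · rw [← Jac_scale 1 hb, one_mul, sub_zero]
  have h4 := sum_le_sum fun b (_ : b ∈ univ) => h3 b
  simp only [sum_sub_distrib, sum_ite_eq', mem_univ, if_true, sum_const, card_univ,
    nsmul_eq_mul] at h4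
  have h5 := Jac_moment hF
  linarith

lemma ind_sq_ge (z : F) : ((quadraticChar F z : ℤ) : ℝ) + 1 ≤ 2 * ind (IsSquare z) := by
  by_cases h : IsSquare z
  · have : ((quadraticChar F z : ℤ) : ℝ) ≤ 1 := by exact_mod_cast chi_le_one z
    simp only [ind, h, if_true]; linarith
  · rw [quadraticChar_neg_one_iff_not_isSquare.2 h]
    simp [ind, h]

omit [Fintype F] [DecidableEq F] in
lemma four_ne_zero' (hF : ringChar F ≠ 2) : (2 : F) ≠ 0 ∧ (4 : F) ≠ 0 := by
  have h2 : (2 : F) ≠ 0 := Ring.two_ne_zero hF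
  exact ⟨h2, by rw [show (4 : F) = 2 * 2 by norm_num]; exact mul_ne_zero h2 h2⟩

lemma N2_ge (hF : ringChar F ≠ 2) :
    (Fintype.card F : ℝ) - 1 ≤ 2 * ∑ b : F, ind (IsSquare (b ^ 2 + 4)) := by
  have h1 := sum_le_sum fun b (_ : b ∈ (univ : Finset F)) => ind_sq_ge (b ^ 2 + 4)
  rw [sum_add_distrib, ← Int.cast_sum, J1 hF (four_ne_zero' hF).2, ← mul_sum] at h1
  simp only [sum_const, card_univ, nsmul_eq_mul, mul_one] at h1
  push_cast at h1
  linarith

lemma N4_ge (hF : ringChar F ≠ 2) (hc : 800 ≤ Fintype.card F) :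
    9 / 10 * (Fintype.card F : ℝ) - 1 ≤ 2 * ∑ b : F, ind (IsSquare (b ^ 4 + 4)) := by
  have h1 := sum_le_sum fun b (_ : b ∈ (univ : Finset F)) => ind_sq_ge (b ^ 4 + 4)
  have h2 : ∑ b : F, quadraticChar F (b ^ 4 + 4) = Jac (4 : F) - 1 := by
    have := Jsq hF fun t => quadraticChar F (t ^ 2 + 4)
    simp only [← pow_mul, add_mul, one_mul, sum_add_distrib, J1 hF (four_ne_zero' hF).2] at this
    exact this
  have h3 := Jac_scale (1 : F) (four_ne_zero' hF).1
  rw [show (1 : F) * 2 ^ 2 = 4 by norm_num] at h3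
  have h4 := Jac_bound hF
  rw [← h3] at h4
  rw [sum_add_distrib, ← Int.cast_sum, h2, ← mul_sum] at h1
  simp only [sum_const, card_univ, nsmul_eq_mul, mul_one] at h1
  push_cast at h1
  have h5 : ((Fintype.card F : ℝ) - 1) * ((Jac (4 : F) : ℤ) : ℝ) ^ 2 ≤
      4 * (Fintype.card F : ℝ) ^ 2 := by exact_mod_cast h4
  have h6 : (800 : ℝ) ≤ Fintype.card F := by exact_mod_cast hc
  generalize (Fintype.card F : ℝ) = q at *
  generalize ((Jac (4 : F) : ℤ) : ℝ) = J at *
  have h7 : -(q / 10) ≤ J := by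
    by_contra hcon
    have h8 : q / 10 < -J := by linarith
    have h9 : (q / 10) ^ 2 < J ^ 2 := by nlinarith
    have h10 : (q - 1) * (q / 10) ^ 2 ≤ (q - 1) * J ^ 2 := by
      apply mul_le_mul_of_nonneg_left h9.le; linarith
    have h11 : 0 < q ^ 2 := by positivity
    nlinarith
  linarith

/-- The excluded pairs of residues. -/
def EZ {R : Type*} [CommRing R] (a b : R) : Prop :=
  a * b + 1 = 0 ∨ (a = 0 ∧ IsSquare (b ^ 2 + 4)) ∨ (b = 0 ∧ IsSquare (a ^ 2 + 4)) ∨
    (a * b + 2 = 0 ∧ IsSquare (a ^ 2 + b ^ 2))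

lemma ind_mono {p r : Prop} (h : p → r) : ind p ≤ ind r := by
  by_cases hp : p
  · simp [ind, hp, h hp]
  · simp only [ind, hp, if_false]; exact (ind_01 r).1

lemma ind_or (p r : Prop) : ind (p ∨ r) ≤ ind p + ind r := by
  by_cases hp : p <;> by_cases hr : r <;> simp [ind, hp, hr]

omit [Field F] [DecidableEq F] in
lemma sum_ind_eq (c : F) : ∑ a : F, ind (a = c) = 1 := by
  rw [sum_eq_single c (fun a _ h => by simp [ind, h]) (by simp)]
  simp [ind]

lemma EZ_upper (hF : ringChar F ≠ 2) : ∑ b : F, ∑ a : F, ind (EZ a b) ≤ 4 * Fintype.card F := by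
  have h1 : ∀ a b : F, ind (EZ a b) ≤
      ind (a = -b⁻¹) + (ind (a = 0) + (ind (b = 0) + ind (a = -2 * b⁻¹))) := by
    intro a b
    refine (ind_or _ _).trans (add_le_add (ind_mono fun h => ?_) ((ind_or _ _).trans
      (add_le_add (ind_mono fun h => h.1) ((ind_or _ _).trans
        (add_le_add (ind_mono fun h => h.1) (ind_mono fun h => ?_))))))
    · have hb : b ≠ 0 := by rintro rfl; simp at h
      field_simp; linear_combination h
    · have hb : b ≠ 0 := by
        rintro rfl
        exact (four_ne_zero' hF).1 (by simpa using h.1)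
      field_simp; linear_combination h.1
  refine (sum_le_sum fun b _ => sum_le_sum fun a _ => h1 a b).trans (le_of_eq ?_)
  simp only [sum_add_distrib, sum_ind_eq, sum_const, card_univ, nsmul_eq_mul, ← mul_sum]
  ring

lemma EZ_lower (hF : ringChar F ≠ 2) (hc : 800 ≤ Fintype.card F) :
    9 / 4 * (Fintype.card F : ℝ) ≤ ∑ b : F, ∑ a : F, ind (EZ a b) := by
  have h2 := (four_ne_zero' hF).1
  have h1 : ∀ b : F, 1 + ind (IsSquare (b ^ 2 + 4)) + ind (IsSquare (b ^ 4 + 4)) +
      ind (b = 0) * (∑ a : F, ind (IsSquare (a ^ 2 + 4)) - 3) ≤ ∑ a : F, ind (EZ a b) := by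
    intro b
    by_cases hb : b = 0
    · have e1 := (ind_01 (IsSquare (b ^ 2 + 4))).2
      have e2 := (ind_01 (IsSquare (b ^ 4 + 4))).2
      have e3 : ∑ a : F, ind (IsSquare (a ^ 2 + 4)) ≤ ∑ a : F, ind (EZ a b) :=
        sum_le_sum fun a _ => ind_mono fun h => Or.inr (Or.inr (Or.inl ⟨hb, h⟩))
      have e4 : ind (b = 0) = 1 := by simp [ind, hb]
      rw [e4]; linarith
    · have e4 : ind (b = 0) = 0 := by simp [ind, hb]
      have e5 := sum_le_sum_of_subset_of_nonneg (f := fun a => ind (EZ a b))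
        (subset_univ ({-b⁻¹, 0, -2 * b⁻¹} : Finset F)) fun a _ _ => (ind_01 _).1
      have n1 : (-b⁻¹ : F) ≠ -2 * b⁻¹ := by
        intro h; field_simp at h; exact one_ne_zero (by linear_combination h)
      rw [sum_insert (by
        simp only [mem_insert, mem_singleton, not_or]; exact ⟨by simp [hb], n1⟩), sum_pair (by simp [hb, h2])] at e5
      have e1 : 1 ≤ ind (EZ (-b⁻¹) b) := by
        have : EZ (-b⁻¹) b := Or.inl (by field_simp; ring)
        simp [ind, this]
      have e2 : ind (IsSquare (b ^ 2 + 4)) ≤ ind (EZ 0 b) :=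
        ind_mono fun h => Or.inr (Or.inl ⟨rfl, h⟩)
      have e3 : ind (IsSquare (b ^ 4 + 4)) ≤ ind (EZ (-2 * b⁻¹) b) := by
        refine ind_mono fun h => Or.inr (Or.inr (Or.inr ⟨by field_simp; ring, ?_⟩))
        have : (-2 * b⁻¹) ^ 2 + b ^ 2 = (b ^ 4 + 4) * b⁻¹ ^ 2 := by field_simp; ring
        rw [this]; exact h.mul (IsSquare.sq _)
      rw [e4]; linarith
  refine le_trans ?_ (sum_le_sum fun b _ => h1 b)
  simp only [sum_add_distrib, ← sum_mul, sum_ind_eq, sum_const, card_univ, nsmul_eq_mul]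
  have h3 := N2_ge hF
  have h4 := N4_ge hF hc
  have h6 : (800 : ℝ) ≤ Fintype.card F := by exact_mod_cast hc
  linarith

lemma E2_count {b : F} (hb : b ≠ 0) (R : Prop) :
    ∑ a : F, ind (a * b + 1 = 0 ∨ (a = 0 ∧ R)) = 1 + ind R := by
  have h1 : ∀ a : F, ind (a * b + 1 = 0 ∨ (a = 0 ∧ R)) = ind (a = -b⁻¹) + ind (a = 0) * ind R := by
    intro a
    have e : a * b + 1 = 0 ↔ a = -b⁻¹ := by
      constructor
      · intro h; field_simp; linear_combination h
      · rintro rfl; field_simp; ring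
    rw [e]
    by_cases h0 : a = 0
    · by_cases hR : R <;> simp [ind, h0, hb, hR]
    · simp [ind, h0]
  simp only [h1, sum_add_distrib, ← sum_mul, sum_ind_eq, one_mul]

end Field

lemma sum_range_zmod (q : ℕ) [NeZero q] (f : ZMod q → ℝ) :
    ∑ a ∈ range q, f a = ∑ z : ZMod q, f z := by
  refine sum_nbij' (fun a => (a : ZMod q)) (fun z => z.val) ?_ ?_ ?_ ?_ ?_
  · simp
  · intro z _; simpa using ZMod.val_lt z
  · intro a ha; exact ZMod.val_cast_of_lt (by simpa using ha)
  · simp
  · simp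

end Pool.Agent.P.MP_74dd9d_nt
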