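import Pool.Agent.P.MP_74dd9d_nt.Dir
import Pool.Agent.P.MP_74dd9d_nt.Chars

/-! Counting the exceptional pairs. -/

namespace Pool.Agent.P.MP_74dd9d_nt

open Finset Filter Topology

/-- Pairs with `a b + 1` prime for which no large prime gives a one element cover. -/
def Bad (a b : ℕ) : Prop :=
  (a * b + 1).Prime ∧ ∀ q : ℕ, q.Prime → 800 ≤ q → q ≠ a * b + 1 → ¬ EZ (a : ZMod q) (b : ZMod q)

lemma sum_sdiff_ge (P Q : Finset ℕ) :
    ∑ q ∈ P, 1 / (q : ℝ) - ∑ q ∈ Q, 1 / (q : ℝ) ≤ ∑ q ∈ P \ Q, 1 / (q : ℝ) := by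
  rw [← sum_sdiff (inter_subset_left (s₁ := P) (s₂ := Q)), sdiff_inter_self_left]
  have := sum_le_sum_of_subset_of_nonneg (f := fun q : ℕ => 1 / (q : ℝ))
    (inter_subset_right (s₁ := P) (s₂ := Q)) fun _ _ _ => by positivity
  linarith

lemma sum_range_inv_le (K : ℕ) : ∑ q ∈ range K, 1 / (q : ℝ) ≤ K := by
  have : ∀ q ∈ range K, 1 / (q : ℝ) ≤ 1 := fun q _ => by
    rcases Nat.eq_zero_or_pos q with rfl | h
    · simp
    · rw [div_le_one (by positivity)]; exact_mod_cast h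
  simpa using sum_le_sum this

lemma exp_neg_SS {t : ℝ} (ht : 0 < t) : Real.exp (-SS t) ≤ 2 / t := by
  have := SS_lower t
  rw [Real.exp_neg, inv_le_comm₀ (Real.exp_pos _) (by positivity)]
  simpa using this

lemma count2 {q b : ℕ} (hq : q.Prime) (hb0 : 0 < b) (hb : b < q) (R : Prop) :
    ∑ a ∈ range q, ind ((a : ZMod q) * b + 1 = 0 ∨ ((a : ZMod q) = 0 ∧ R)) = 1 + ind R := by
  have : Fact q.Prime := ⟨hq⟩
  rw [sum_range_zmod q fun a => ind (a * b + 1 = 0 ∨ (a = 0 ∧ R))]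
  refine E2_count ?_ R
  rw [Ne, ZMod.natCast_eq_zero_iff]
  exact Nat.not_dvd_of_pos_of_lt hb0 hb

lemma count1 {q : ℕ} (hq : q.Prime) (h8 : 800 ≤ q) :
    9 / 4 * (q : ℝ) ≤ ∑ b ∈ range q, ∑ a ∈ range q, ind (EZ (a : ZMod q) (b : ZMod q)) ∧
      ∑ b ∈ range q, ∑ a ∈ range q, ind (EZ (a : ZMod q) (b : ZMod q)) ≤ 4 * q := by
  have : Fact q.Prime := ⟨hq⟩
  have h1 : ∑ b ∈ range q, ∑ a ∈ range q, ind (EZ (a : ZMod q) (b : ZMod q)) =
      ∑ b : ZMod q, ∑ a : ZMod q, ind (EZ a b) := by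
    rw [← sum_range_zmod q fun b => ∑ a : ZMod q, ind (EZ a b)]
    exact sum_congr rfl fun b _ => sum_range_zmod q fun a => ind (EZ a (b : ZMod q))
  have hF : ringChar (ZMod q) ≠ 2 := by rw [ZMod.ringChar_zmod_n]; omega
  have h2 := EZ_lower hF (by rwa [ZMod.card])
  have h3 := EZ_upper hF
  rw [ZMod.card] at h2 h3
  exact ⟨h1 ▸ h2, h1 ▸ h3⟩

lemma dyadic : ∃ C : ℝ, 0 < C ∧ ∀ x B : ℕ, 3840 ≤ Real.log x → 1920 ≤ Real.log B → B ^ 2 ≤ x →
    ∀ S : Finset (ℕ × ℕ), (∀ z ∈ S, B ≤ z.2 ∧ z.2 < 2 * B ∧ z.1 * z.2 + 1 ≤ x ∧ Bad z.1 z.2 ∧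
      Real.exp (Real.log x / 640) < (z.1 * z.2 + 1 : ℕ)) →
    (S.card : ℝ) ≤ C * (x / Real.log x) * (Real.log B * (Real.log B / 640) ^ (-(9 / 4) : ℝ)) +
      2 * Real.exp (9 / 10 * Real.log x) := by
  classical
  refine ⟨8 * 768000 * (Real.exp 1806 + Real.exp 3), by positivity, fun x B hx hB hBx S hS => ?_⟩
  set L := Real.log x with hL
  set β := Real.log B with hβ
  have hB0 : 0 < B := by
    rcases Nat.eq_zero_or_pos B with rfl | h
    · simp at hβ; linarith
    · exact h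
  have hB0' : (0 : ℝ) < B := by exact_mod_cast hB0
  have hBe : (B : ℝ) = Real.exp β := (Real.exp_log hB0').symm
  have hB1 : (1921 : ℝ) ≤ B := by linarith [Real.add_one_le_exp β]
  have hB2 : 1921 ≤ B := by exact_mod_cast hB1
  have hβL : 2 * β ≤ L := by
    have : ((B : ℝ)) ^ 2 ≤ x := by exact_mod_cast hBx
    have := Real.log_le_log (by positivity) this
    rw [Real.log_pow] at this
    exact_mod_cast this
  have h2B : Real.log (2 * B) = Real.log 2 + β := Real.log_mul (by norm_num) hB0'.ne'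
  have hl2 := Real.log_two_lt_d9
  have hl2' := Real.log_two_gt_d9
  set P1 := Pr (β / 320) \ range 800 with hP1
  set P2 := Pr (L / 640) \ Pr (Real.log (2 * B)) with hP2
  have m1 : ∀ q ∈ P1, q.Prime ∧ 800 ≤ q ∧ (q : ℝ) ≤ Real.exp (β / 320) := fun q hq => by
    obtain ⟨h1, h2⟩ := mem_sdiff.1 hq
    exact ⟨(mem_Pr.1 h1).2, by simpa using h2, (mem_Pr.1 h1).1⟩
  have m2 : ∀ q ∈ P2, q.Prime ∧ 2 * B < q ∧ (q : ℝ) ≤ Real.exp (L / 640) := fun q hq => by
    obtain ⟨h1, h2⟩ := mem_sdiff.1 hq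
    refine ⟨(mem_Pr.1 h1).2, ?_, (mem_Pr.1 h1).1⟩
    rw [mem_Pr, Real.exp_log (by positivity)] at h2
    have := not_le.1 fun h => h2 ⟨h, (mem_Pr.1 h1).2⟩
    exact_mod_cast this
  have hd : Disjoint P1 P2 := by
    refine disjoint_left.2 fun q h1 h2 => (mem_sdiff.1 h2).2 (mem_Pr.2 ⟨?_, (m1 q h1).1⟩)
    exact (m1 q h1).2.2.trans (Real.exp_le_exp.2 (by linarith))
  have key := sieve (fun q hq => (m1 q hq).1) (fun q hq => (m2 q hq).1) hd
    (T1 := β / 10) (T2 := L / 20) (by linarith) (by linarith)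
    (fun q a b => if q ∈ P1 then EZ (a : ZMod q) (b : ZMod q) else
      ((a : ZMod q) * b + 1 = 0 ∨ ((a : ZMod q) = 0 ∧ False)))
    (fun q a b => by simp) (fun q a b => by simp)
    (fun q => if q ∈ P1 then
      (∑ b ∈ range q, ∑ a ∈ range q, ind (EZ (a : ZMod q) (b : ZMod q))) / q ^ 2 else 1 / q)
    (fun q => if q ∈ P1 then 9 / 4 * (1 / q) else 1 / q) (x / B + 1) B B
    (fun q hq => ?_) (fun q hq => ?_) ?_ ?_ (fun q hq => ?_) (fun q hq i hi => ?_) S
    (fun z hz => ?_)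
  rotate_left
  · obtain ⟨a1, a2, -⟩ := m1 q hq
    obtain ⟨c1, c2⟩ := count1 a1 a2
    have hq0 : (0 : ℝ) < q := by exact_mod_cast a1.pos
    simp only [hq, if_true]
    refine ⟨by positivity, ?_, ?_, by omega⟩
    · rw [le_div_iff₀ (by positivity)]
      refine le_trans (le_of_eq ?_) c1
      field_simp
    · rw [div_le_iff₀ (by positivity)]
      refine c2.trans (le_of_eq ?_)
      field_simp
  · have hn : q ∉ P1 := disjoint_right.1 hd hq
    obtain ⟨a1, a2, -⟩ := m2 q hq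
    simp only [hn, if_false]
    exact ⟨by positivity, le_rfl, div_le_div_of_nonneg_right (by norm_num) (by positivity),
      by omega⟩
  · have := mertens1 (t := β / 320) (by linarith) (sdiff_subset (t := range 800))
    linarith
  · have := mertens1 (t := L / 640) (by linarith) (sdiff_subset (t := Pr (Real.log (2 * B))))
    linarith
  · have hq0 : (0 : ℝ) < q := by exact_mod_cast (m1 q hq).1.pos
    simp only [hq, if_true]
    field_simp
  · have hn : q ∉ P1 := disjoint_right.1 hd hq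
    obtain ⟨a1, a2, -⟩ := m2 q hq
    have hq0 : (0 : ℝ) < q := by exact_mod_cast a1.pos
    simp only [hn, if_false]
    rw [count2 a1 (by omega) (by omega)]
    simp [ind, hq0.ne']
  · obtain ⟨a1, a2, a3, a4, a5⟩ := hS z hz
    have hne : ∀ q : ℕ, (q : ℝ) ≤ Real.exp (L / 640) → q ≠ z.1 * z.2 + 1 := by
      rintro q h rfl; linarith
    refine ⟨Nat.lt_succ_of_le ((Nat.le_div_iff_mul_le hB0).2 ?_), a1, by omega, fun q hq => ?_,
      fun q hq => ?_⟩
    · nlinarith
    · obtain ⟨b1, b2, b3⟩ := m1 q hq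
      simp only [hq, if_true]
      exact a4.2 q b1 b2 (hne q (b3.trans (Real.exp_le_exp.2 (by linarith))))
    · have hn : q ∉ P1 := disjoint_right.1 hd hq
      obtain ⟨b1, b2, b3⟩ := m2 q hq
      simp only [hn, if_false, and_false, or_false]
      exact fun h => a4.2 q b1 (by omega) (hne q b3) (Or.inl h)
  have s1 : 9 / 4 * (SS (β / 320) - 800) ≤
      ∑ q ∈ P1, (if q ∈ P1 then 9 / 4 * (1 / (q : ℝ)) else 1 / q) := by
    rw [sum_congr rfl fun q hq => if_pos hq, ← mul_sum]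
    have h1 := sum_sdiff_ge (Pr (β / 320)) (range 800)
    have h2 := sum_range_inv_le 800
    push_cast at h2
    rw [SS]; linarith
  have s2 : SS (L / 640) - SS (Real.log (2 * B)) ≤
      ∑ q ∈ P2, (if q ∈ P1 then 9 / 4 * (1 / (q : ℝ)) else 1 / q) := by
    rw [sum_congr rfl fun q hq => if_neg (disjoint_right.1 hd hq)]
    exact sum_sdiff_ge _ _
  generalize (∑ q ∈ P1, if q ∈ P1 then 9 / 4 * (1 / (q : ℝ)) else 1 / q) = σ1 at key s1
  generalize (∑ q ∈ P2, if q ∈ P1 then 9 / 4 * (1 / (q : ℝ)) else 1 / q) = σ2 at key s2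
  set ρ := (β / 640) ^ (-(9 / 4) : ℝ) with hρ
  have hρ0 : 0 < ρ := Real.rpow_pos_of_pos (by linarith) _
  have e1 : Real.exp (-σ1) ≤ Real.exp 1800 * ρ := by
    have h1 : Real.exp (SS (β / 320)) ^ (-(9 / 4) : ℝ) ≤ ρ :=
      Real.rpow_le_rpow_of_nonpos (by linarith) (by linarith [SS_lower (β / 320)]) (by norm_num)
    rw [← Real.exp_mul] at h1
    refine le_trans ?_ (mul_le_mul_of_nonneg_left h1 (Real.exp_pos _).le)
    rw [← Real.exp_add]
    exact Real.exp_le_exp.2 (by linarith)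
  have e2 : Real.exp (-σ2) ≤ 768000 * β / L := by
    have h1 := exp_neg_SS (t := L / 640) (by linarith)
    have h2 := SS_upper (t := Real.log (2 * B)) (by linarith)
    have h3 := mul_le_mul h1 h2 (Real.exp_pos _).le (by positivity)
    rw [← Real.exp_add] at h3
    refine (Real.exp_le_exp.2 (by linarith)).trans (h3.trans ?_)
    rw [h2B, le_div_iff₀ (by linarith)]
    have : 2 / (L / 640) * (300 * (Real.log 2 + β)) * L = 384000 * (Real.log 2 + β) := by
      field_simp; norm_num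
    linarith
  have e3 : Real.exp (4 * (β / 10)) ≤ B * ρ := by
    have h1 : Real.exp (β / 640) ^ (-(9 / 4) : ℝ) ≤ ρ :=
      Real.rpow_le_rpow_of_nonpos (by linarith) (by linarith [Real.add_one_le_exp (β / 640)])
        (by norm_num)
    rw [← Real.exp_mul] at h1
    refine le_trans ?_ (mul_le_mul_of_nonneg_left h1 hB0'.le)
    rw [hBe, ← Real.exp_add]
    exact Real.exp_le_exp.2 (by linarith)
  have e4 : B * Real.exp (4 * (β / 10) + 4 * (L / 20)) ≤ Real.exp (9 / 10 * L) := by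
    rw [hBe, ← Real.exp_add]
    exact Real.exp_le_exp.2 (by linarith)
  have e5 : ((x / B + 1 : ℕ) : ℝ) * B ≤ 2 * x := by
    have h1 := Nat.div_mul_le_self x B
    have h2 : (x / B + 1) * B ≤ 2 * x := by nlinarith
    exact_mod_cast h2
  have x1 : Real.exp (6 - σ1 - σ2) = Real.exp 6 * (Real.exp (-σ1) * Real.exp (-σ2)) := by
    rw [← Real.exp_add, ← Real.exp_add]; congr 1; ring
  have x2 : Real.exp (4 * (β / 10) + 3 - σ2) =
      Real.exp 3 * (Real.exp (4 * (β / 10)) * Real.exp (-σ2)) := by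
    rw [← Real.exp_add, ← Real.exp_add]; congr 1; ring
  have x3 : Real.exp 1806 = Real.exp 6 * Real.exp 1800 := by
    rw [← Real.exp_add]; norm_num
  rw [x1, x2] at key
  rw [x3]
  have f1 := mul_le_mul e1 e2 (Real.exp_pos _).le (by positivity)
  have f2 := mul_le_mul e3 e2 (Real.exp_pos _).le (by positivity)
  have hLp : 0 < L := by linarith
  have hβp : 0 < β := by linarith
  have hA : (0 : ℝ) ≤ ((x / B + 1 : ℕ) : ℝ) := by positivity
  generalize ((x / B + 1 : ℕ) : ℝ) = A at *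
  have g1 := mul_le_mul_of_nonneg_left f1 (show 0 ≤ 4 * A * B * Real.exp 6 by positivity)
  have g2 := mul_le_mul_of_nonneg_left f2 (show 0 ≤ 4 * A * Real.exp 3 by positivity)
  have g3 := mul_le_mul_of_nonneg_right e5 (show 0 ≤ 4 * (Real.exp 6 * Real.exp 1800 +
    Real.exp 3) * (ρ * (768000 * β / L)) by positivity)
  have g4 : 8 * 768000 * (Real.exp 6 * Real.exp 1800 + Real.exp 3) * (x / L) * (β * ρ) =
      2 * x * (4 * (Real.exp 6 * Real.exp 1800 + Real.exp 3) * (ρ * (768000 * β / L))) := by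
    ring
  rw [g4]
  linarith

lemma isSquare_of_one {q : ℕ} (hq : q.Prime) (h8 : 800 ≤ q) {D : ℕ}
    (h : (q : ZMod (4 * D)) = 1) : IsSquare (D : ZMod q) := by
  have : Fact q.Prime := ⟨hq⟩
  have h1 : q % (4 * D) = 1 % (4 * D) :=
    (ZMod.natCast_eq_natCast_iff' q 1 (4 * D)).1 (by simpa using h)
  have h2 := jacobiSym.mod_right' D (hq.odd_of_ne_two (by omega))
  have h3 := jacobiSym.mod_right' D (b := 1) odd_one
  rw [h1, ← h3, jacobiSym.one_right] at h2
  simpa using ZMod.isSquare_of_jacobiSym_eq_one h2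

lemma fixed (b : ℕ) (hb : 0 < b) {ε : ℝ} (hε : 0 < ε) : ∀ᶠ x : ℕ in atTop,
    ∀ S : Finset (ℕ × ℕ), (∀ z ∈ S, z.2 = b ∧ z.1 * z.2 + 1 ≤ x ∧ Bad z.1 z.2 ∧
      Real.exp (Real.log x / 640) < (z.1 * z.2 + 1 : ℕ)) →
    (S.card : ℝ) ≤ ε * (x / Real.log x) + 2 * Real.exp (9 / 10 * Real.log x) := by
  obtain ⟨m, hm⟩ : ∃ m, m = 4 * (b ^ 2 + 4) := ⟨_, rfl⟩
  have : NeZero m := ⟨by rw [hm]; positivity⟩
  have hlog : Tendsto (fun x : ℕ => Real.log x) atTop atTop :=
    Real.tendsto_log_atTop.comp tendsto_natCast_atTop_atTop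
  obtain ⟨K, hK⟩ : ∃ K, K = b + 800 := ⟨_, rfl⟩
  set M := K + Real.log (8 * 1280 * (Real.exp 6 + Real.exp 7) / ε) with hM
  filter_upwards [(hlog.atTop_div_const (by norm_num : (0 : ℝ) < 640)).eventually
    (eventually_ap m K M), hlog.eventually_ge_atTop 3840] with x h1 hx S hS
  set L := Real.log x with hL
  set P2 := Pr (L / 640) \ range K with hP2
  have m2 : ∀ q ∈ P2, q.Prime ∧ K ≤ q ∧ (q : ℝ) ≤ Real.exp (L / 640) := fun q hq => by
    obtain ⟨h1, h2⟩ := mem_sdiff.1 hq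
    exact ⟨(mem_Pr.1 h1).2, by simpa using h2, (mem_Pr.1 h1).1⟩
  have key := sieve (P1 := ∅) (by simp) (fun q hq => (m2 q hq).1) (by simp)
    (T1 := 1) (T2 := L / 20) (by linarith) (by linarith)
    (fun q a b' => (a : ZMod q) * b' + 1 = 0 ∨
      ((a : ZMod q) = 0 ∧ (q : ZMod m) = 1))
    (fun q a b => by simp) (fun q a b => by simp)
    (fun q => (1 + ind ((q : ZMod m) = 1)) / q)
    (fun q => (1 + ind ((q : ZMod m) = 1)) / q) x b 1
    (by simp) (fun q hq => ?_) (by simp) ?_ (by simp) (fun q hq i hi => ?_) S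
    (fun z hz => ?_)
  rotate_left
  · have := ind_01 ((q : ZMod m) = 1)
    exact ⟨div_nonneg (by linarith) (by positivity), le_rfl,
      div_le_div_of_nonneg_right (by linarith) (by positivity), by have := (m2 q hq).2.1; omega⟩
  · have := mertens1 (t := L / 640) (by linarith) (sdiff_subset (t := range K))
    linarith
  · obtain ⟨a1, a2, -⟩ := m2 q hq
    have hq0 : (0 : ℝ) < q := by exact_mod_cast a1.pos
    rw [count2 a1 (by omega) (by omega)]
    field_simp
  · obtain ⟨a1, a3, a4, a5⟩ := hS z hz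
    refine ⟨by nlinarith, a1.ge, by omega, by simp, fun q hq h => ?_⟩
    obtain ⟨b1, b2, b3⟩ := m2 q hq
    refine a4.2 q b1 (by omega) (by rintro rfl; linarith) (h.imp_right fun h => Or.inl ⟨h.1, ?_⟩)
    have := isSquare_of_one (D := b ^ 2 + 4) b1 (by omega) (by subst hm; exact h.2)
    rw [a1]
    exact_mod_cast this
  have s2 : SS (L / 640) - K + M ≤
      ∑ q ∈ P2, (1 + ind ((q : ZMod m) = 1)) / q := by
    simp only [add_div, sum_add_distrib]
    have h2 := sum_sdiff_ge (Pr (L / 640)) (range K)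
    have h3 := sum_range_inv_le K
    rw [SS]; linarith
  generalize (∑ q ∈ P2, (1 + ind ((q : ZMod m) = 1)) / q) = σ at key s2
  have hLp : 0 < L := by linarith
  have hE : 0 < Real.exp 6 + Real.exp 7 := by positivity
  have e2 : Real.exp (-σ) ≤ ε / (4 * (Real.exp 6 + Real.exp 7) * L) := by
    have h2 := exp_neg_SS (t := L / 640) (by linarith)
    have h3 : Real.exp (K - M) = ε / (8 * 1280 * (Real.exp 6 + Real.exp 7)) := by
      rw [hM, show ∀ a b : ℝ, a - (a + b) = -b from fun a b => by ring, Real.exp_neg,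
        Real.exp_log (by positivity), inv_div]
    have h4 := mul_le_mul_of_nonneg_right h2 (Real.exp_pos (K - M)).le
    rw [← Real.exp_add, h3] at h4
    refine (Real.exp_le_exp.2 (by linarith)).trans (h4.trans ?_)
    have : 2 / (L / 640) * (ε / (8 * 1280 * (Real.exp 6 + Real.exp 7))) =
        ε / (8 * (Real.exp 6 + Real.exp 7) * L) := by field_simp; norm_num
    rw [this]
    exact div_le_div_of_nonneg_left hε.le (by positivity) (by nlinarith [mul_pos hE hLp])
  have x1 : Real.exp (6 - ∑ q ∈ (∅ : Finset ℕ),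
      (1 + ind ((q : ZMod m) = 1)) / q - σ) = Real.exp 6 * Real.exp (-σ) := by
    rw [← Real.exp_add]; congr 1; simp; ring
  have x2 : Real.exp (4 * 1 + 3 - σ) = Real.exp 7 * Real.exp (-σ) := by
    rw [← Real.exp_add]; congr 1; ring
  have x3 : Real.exp (4 * 1 + 4 * (L / 20)) ≤ Real.exp (9 / 10 * L) :=
    Real.exp_le_exp.2 (by linarith)
  rw [x1, x2] at key
  have g1 := mul_le_mul_of_nonneg_left e2 (show 0 ≤ 4 * (Real.exp 6 + Real.exp 7) * x by positivity)
  have g2 : 4 * (Real.exp 6 + Real.exp 7) * x * (ε / (4 * (Real.exp 6 + Real.exp 7) * L)) =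
      ε * (x / L) := by field_simp
  push_cast at key
  linarith

end Pool.Agent.P.MP_74dd9d_nt
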