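import Pool.Agent.P.MP_74dd9d_nt.Count

/-! Summation over all ranges of `b`. -/

namespace Pool.Agent.P.MP_74dd9d_nt

open Finset Filter Topology

lemma EZ.symm {R : Type*} [CommRing R] {a b : R} (h : EZ a b) : EZ b a := by
  unfold EZ at *
  rw [mul_comm b a, add_comm (b ^ 2) (a ^ 2)]
  tauto

lemma Bad.symm {a b : ℕ} (h : Bad a b) : Bad b a := by
  unfold Bad at *
  rw [mul_comm b a]
  exact ⟨h.1, fun q h1 h2 h3 h4 => h.2 q h1 h2 h3 h4.symm⟩

lemma summable_tau : Summable fun j : ℕ =>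
    Real.log ((2 ^ j : ℕ) : ℝ) * (Real.log ((2 ^ j : ℕ) : ℝ) / 640) ^ (-(9 / 4) : ℝ) := by
  have h1 := (Real.summable_nat_rpow.2 (by norm_num : (-(5 / 4) : ℝ) < -1)).mul_left
    (Real.log 2 * (Real.log 2 / 640) ^ (-(9 / 4) : ℝ))
  refine h1.congr fun j => ?_
  have hl := Real.log_pos one_lt_two
  push_cast
  rw [Real.log_pow, mul_div_assoc, Real.mul_rpow (by positivity) (by positivity),
    show (-(5 / 4) : ℝ) = 1 + -(9 / 4) by norm_num, Real.rpow_one_add' (by positivity) (by norm_num)]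
  ring

lemma small_err (K : ℝ) {ε : ℝ} (hε : 0 < ε) : ∀ᶠ x : ℕ in atTop,
    K * Real.log x * Real.exp (9 / 10 * Real.log x) ≤ ε * (x / Real.log x) := by
  have hlog : Tendsto (fun x : ℕ => Real.log x) atTop atTop :=
    Real.tendsto_log_atTop.comp tendsto_natCast_atTop_atTop
  have h1 := ((Real.tendsto_pow_mul_exp_neg_atTop_nhds_zero 2).comp
    (hlog.atTop_div_const (by norm_num : (0 : ℝ) < 10))).const_mul (100 * K)
  rw [mul_zero] at h1
  filter_upwards [h1.eventually (ge_mem_nhds hε), hlog.eventually_gt_atTop 0,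
    eventually_gt_atTop 0] with x h2 h3 h4
  simp only [Function.comp] at h2
  have h5 : (x : ℝ) = Real.exp (Real.log x) := (Real.exp_log (by exact_mod_cast h4)).symm
  generalize Real.log x = L at *
  rw [h5, ← mul_div_assoc, le_div_iff₀ h3]
  have h6 : Real.exp (9 / 10 * L) = Real.exp (-(L / 10)) * Real.exp L := by
    rw [← Real.exp_add]; congr 1; ring
  have h7 := mul_le_mul_of_nonneg_right h2 (Real.exp_pos L).le
  rw [h6]
  linarith

lemma pi_lower : ∀ᶠ x : ℕ in atTop, (x : ℝ) / Real.log x ≤ 2 * Nat.primeCounting x := by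
  have hlog : Tendsto (fun x : ℕ => Real.log x) atTop atTop :=
    Real.tendsto_log_atTop.comp tendsto_natCast_atTop_atTop
  filter_upwards [hlog.eventually_gt_atTop 0, eventually_ge_atTop 400] with x h1 h2
  have h3 := Chebyshev.pi_ge x
  have h4 : (400 : ℝ) ≤ x := by exact_mod_cast h2
  have h5 := Real.log_two_gt_d9
  have h6 : Real.log (x + 1) ≤ x / 6 := by
    have h7 := Real.log_le_sub_one_of_pos (x := (x + 1) / 64) (by positivity)
    rw [Real.log_div (by positivity) (by norm_num), show (64 : ℝ) = 2 ^ 6 by norm_num,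
      Real.log_pow] at h7
    have := Real.log_two_lt_d9
    push_cast at h7
    linarith
  rw [div_le_iff₀ h1] at h3 ⊢
  nlinarith

open Classical in
theorem count_bad {ε : ℝ} (hε : 0 < ε) : ∀ᶠ x : ℕ in atTop, ∀ N : Finset ℕ,
    (∀ c ∈ N, c ≤ x ∧ ∃ a b, 0 < a ∧ 0 < b ∧ a * b + 1 = c ∧ Bad a b) →
      (N.card : ℝ) ≤ 3 * ε * (x / Real.log x) := by
  obtain ⟨C, hC, hdy⟩ := dyadic
  obtain ⟨s, hs⟩ := summable_tau.vanishing (gt_mem_nhds (div_pos hε hC))
  obtain ⟨J, hJ⟩ : ∃ J, J = s.sup id + 3000 := ⟨_, rfl⟩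
  have hlog : Tendsto (fun x : ℕ => Real.log x) atTop atTop :=
    Real.tendsto_log_atTop.comp tendsto_natCast_atTop_atTop
  have hfix := (eventually_all_finset (Ico 1 (2 ^ J))).2 fun b hb =>
    fixed b (mem_Ico.1 hb).1 (ε := ε / 2 ^ J) (by positivity)
  filter_upwards [hfix, hlog.eventually_ge_atTop 3840, small_err (2 * 2 ^ J + 6) hε]
    with x h1 hx h2 N hN
  set L := Real.log x with hL
  set T := (range (x + 1) ×ˢ range (x + 1)).filter fun z : ℕ × ℕ => 0 < z.2 ∧ z.2 ≤ z.1 ∧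
    z.1 * z.2 + 1 ≤ x ∧ Bad z.1 z.2 ∧ Real.exp (L / 640) < (z.1 * z.2 + 1 : ℕ) with hT
  have c1 : N ⊆ range (⌊Real.exp (L / 640)⌋₊ + 1) ∪ T.image fun z => z.1 * z.2 + 1 := by
    intro c hc
    obtain ⟨hcx, a, b, ha, hb, hab, hbad⟩ := hN c hc
    by_cases h : Real.exp (L / 640) < c
    · refine mem_union_right _ (mem_image.2 ?_)
      rcases le_total b a with h' | h'
      · refine ⟨(a, b), mem_filter.2 ⟨?_, hb, h', hab ▸ hcx, hbad, hab ▸ h⟩, hab⟩
        simp only [mem_product, mem_range]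
        constructor <;> nlinarith
      · rw [mul_comm] at hab
        refine ⟨(b, a), mem_filter.2 ⟨?_, ha, h', hab ▸ hcx, hbad.symm, hab ▸ h⟩, hab⟩
        simp only [mem_product, mem_range]
        constructor <;> nlinarith
    · exact mem_union_left _ (mem_range.2 (Nat.lt_succ_of_le (Nat.le_floor (not_lt.1 h))))
  have c2 : (N.card : ℝ) ≤ Real.exp (L / 640) + 1 + T.card := by
    have := (card_le_card c1).trans ((card_union_le _ _).trans (add_le_add le_rfl card_image_le))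
    rw [card_range] at this
    have h3 : (N.card : ℝ) ≤ (⌊Real.exp (L / 640)⌋₊ : ℝ) + 1 + T.card := by exact_mod_cast this
    linarith [Nat.floor_le (Real.exp_pos (L / 640)).le]
  have mT : ∀ z ∈ T, 0 < z.2 ∧ z.2 ≤ z.1 ∧ z.1 * z.2 + 1 ≤ x ∧ Bad z.1 z.2 ∧
      Real.exp (L / 640) < (z.1 * z.2 + 1 : ℕ) := fun z hz => (mem_filter.1 hz).2
  have c3 := card_filter_add_card_filter_not (s := T) fun z => z.2 < 2 ^ J
  have hE := Real.exp_pos (9 / 10 * L)
  have hxL : 0 ≤ x / L := by positivity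
  have c4 : ((T.filter fun z => z.2 < 2 ^ J).card : ℝ) ≤
      ε * (x / L) + 2 ^ J * (2 * Real.exp (9 / 10 * L)) := by
    rw [card_eq_sum_card_fiberwise (f := fun z : ℕ × ℕ => z.2) (t := Ico 1 (2 ^ J))
      fun z hz => by
        obtain ⟨a1, a2⟩ := mem_filter.1 hz
        exact mem_coe.2 (mem_Ico.2 ⟨(mT z a1).1, a2⟩)]
    push_cast
    refine (sum_le_sum fun b hb => h1 b hb _ fun z hz => ?_).trans ?_
    · obtain ⟨a1, a2⟩ := mem_filter.1 hz
      exact ⟨a2, (mT z (mem_filter.1 a1).1).2.2⟩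
    · rw [sum_const, Nat.card_Ico, nsmul_eq_mul]
      have h3 : ((2 ^ J - 1 : ℕ) : ℝ) ≤ 2 ^ J := by exact_mod_cast Nat.sub_le _ _
      refine (mul_le_mul_of_nonneg_right h3 (by positivity)).trans (le_of_eq ?_)
      field_simp
  set JJ := (range (⌊L⌋₊ + 1)).filter fun j => J ≤ j ∧ (2 ^ j) ^ 2 ≤ x with hJJ
  have hl2 := Real.log_two_gt_d9
  have c5 : ((T.filter fun z => ¬ z.2 < 2 ^ J).card : ℝ) ≤
      ε * (x / L) + (L + 1) * (2 * Real.exp (9 / 10 * L)) := by
    rw [card_eq_sum_card_fiberwise (f := fun z : ℕ × ℕ => Nat.log 2 z.2) (t := JJ)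
      fun z hz => by
        obtain ⟨a1, a2⟩ := mem_filter.1 hz
        obtain ⟨b1, b2, b3, -⟩ := mT z a1
        have b4 := Nat.pow_log_le_self 2 b1.ne'
        have b5 : (2 ^ Nat.log 2 z.2) ^ 2 ≤ x := by
          have := Nat.mul_le_mul (b4.trans b2) b4
          rw [sq]; omega
        refine mem_coe.2 (mem_filter.2 ⟨mem_range.2 (Nat.lt_succ_of_le (Nat.le_floor ?_)),
          Nat.le_log_of_pow_le one_lt_two (not_lt.1 a2), b5⟩)
        have b6 : ((2 : ℝ) ^ Nat.log 2 z.2) ^ 2 ≤ x := by exact_mod_cast b5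
        have b7 := Real.log_le_log (by positivity) b6
        rw [Real.log_pow, Real.log_pow] at b7
        push_cast at b7
        have : (0 : ℝ) ≤ Nat.log 2 z.2 := by positivity
        nlinarith]
    push_cast
    refine (sum_le_sum fun j hj => hdy x (2 ^ j) hx ?_ (mem_filter.1 hj).2.2 _
      fun z hz => ?_).trans ?_
    · have a1 : 3000 ≤ j := by have := (mem_filter.1 hj).2.1; omega
      have a2 : (3000 : ℝ) ≤ j := by exact_mod_cast a1
      push_cast
      rw [Real.log_pow]; nlinarith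
    · obtain ⟨a1, a2⟩ := mem_filter.1 hz
      obtain ⟨b1, -, b3⟩ := mT z (mem_filter.1 a1).1
      refine ⟨a2 ▸ Nat.pow_log_le_self 2 b1.ne', ?_, b3⟩
      have := Nat.lt_pow_succ_log_self one_lt_two z.2
      rw [a2, pow_succ] at this
      omega
    · rw [sum_add_distrib, ← mul_sum, sum_const, nsmul_eq_mul]
      have a1 := hs JJ (disjoint_left.2 fun j hj hj' => by
        have := (mem_filter.1 hj).2.1
        have := le_sup (f := id) hj'
        simp only [id] at this
        omega)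
      have a2 : (JJ.card : ℝ) ≤ L + 1 := by
        have := (card_filter_le (range (⌊L⌋₊ + 1)) fun j => J ≤ j ∧ (2 ^ j) ^ 2 ≤ x)
        rw [card_range] at this
        have h3 : (JJ.card : ℝ) ≤ (⌊L⌋₊ : ℝ) + 1 := by exact_mod_cast this
        linarith [Nat.floor_le (by linarith : 0 ≤ L)]
      have a3 := mul_le_mul_of_nonneg_left (le_of_lt a1) (mul_nonneg hC.le hxL)
      have a4 : C * (x / L) * (ε / C) = ε * (x / L) := by field_simp
      have a5 := mul_le_mul_of_nonneg_right a2 (by positivity : 0 ≤ 2 * Real.exp (9 / 10 * L))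
      linarith
  have c6 : (T.card : ℝ) = (T.filter fun z => z.2 < 2 ^ J).card +
      (T.filter fun z => ¬ z.2 < 2 ^ J).card := by exact_mod_cast c3.symm
  have c7 : Real.exp (L / 640) ≤ Real.exp (9 / 10 * L) := Real.exp_le_exp.2 (by linarith)
  have c8 : 1 ≤ Real.exp (9 / 10 * L) := Real.one_le_exp (by linarith)
  have c9 : 0 ≤ (2 * 2 ^ J + 4) * (L - 1) * Real.exp (9 / 10 * L) :=
    mul_nonneg (mul_nonneg (by positivity) (by linarith)) hE.le
  linarith

end Pool.Agent.P.MP_74dd9d_nt
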