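import Pool.Agent.P.MP_74dd9d_nt.Defs
import Pool.Agent.P.MP_74dd9d_nt.Main

/-! One element covers, and the density statement. -/

namespace Pool.Agent.P.MP_74dd9d_nt

open Finset Filter Topology

lemma cover {a b q : ℕ} (hb : 0 < b) (hc : (a * b + 1).Prime) (hq : q.Prime) (h8 : 800 ≤ q)
    (hne : q ≠ a * b + 1) (h : EZ (a : ZMod q) (b : ZMod q)) :
    ∃ l ≤ 2, IsQRC (a * b + 1) b l {q} := by
  have : Fact q.Prime := ⟨hq⟩
  have hD : ∀ n, ((Delta (a * b + 1) b n : ℤ) : ZMod q) =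
      (b * ((a : ZMod q) * b + 1) ^ n + a) ^ 2 + 4 * ((a : ZMod q) * b + 1) ^ n := by
    intro n
    simp only [Delta, Nat.add_sub_cancel, Nat.mul_div_cancel _ hb]
    push_cast; ring
  have hmod : ∀ l, (a * b + 1) ^ l ≡ 1 [MOD q] ↔ ((a : ZMod q) * b + 1) ^ l = 1 := by
    intro l
    rw [← ZMod.natCast_eq_natCast_iff]; push_cast; rfl
  have fin : ∀ l, 0 < l → ((a : ZMod q) * b + 1) ^ l = 1 →
      (∀ m, 0 < m → m < l → ((a : ZMod q) * b + 1) ^ m ≠ 1) →
      (∀ n, IsSquare ((b * ((a : ZMod q) * b + 1) ^ n + a) ^ 2 + 4 * ((a : ZMod q) * b + 1) ^ n)) →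
      IsQRC (a * b + 1) b l {q} := by
    intro l h0 h1 h2 h3
    refine ⟨by simpa using hq, h0, by simpa [hmod] using h1, fun m m0 ml => ⟨q, by simp, ?_⟩,
      fun n => ⟨q, by simp, Or.inr ⟨by omega, fun hj => ?_⟩⟩⟩
    · rw [hmod]; exact h2 m m0 ml
    · exact ZMod.nonsquare_of_jacobiSym_eq_neg_one hj (hD n ▸ h3 n)
  rcases h with h | ⟨h, hs⟩ | ⟨h, hs⟩ | ⟨h, hs⟩
  · exfalso
    have h1 : ((a * b + 1 : ℕ) : ZMod q) = 0 := by push_cast; exact h
    rw [ZMod.natCast_eq_zero_iff] at h1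
    exact hne ((Nat.prime_dvd_prime_iff_eq hq hc).1 h1)
  · exact ⟨1, by norm_num, fin 1 one_pos (by simp [h]) (by omega) fun n => by simpa [h] using hs⟩
  · exact ⟨1, by norm_num, fin 1 one_pos (by simp [h]) (by omega) fun n => by simpa [h] using hs⟩
  · have h1 : (a : ZMod q) * b + 1 = -1 := by linear_combination h
    refine ⟨2, le_rfl, fin 2 two_pos (by simp [h1]) (fun m m0 m2 => ?_) fun n => ?_⟩
    · obtain rfl : m = 1 := by omega
      rw [h1, pow_one]
      have : Fact (2 < q) := ⟨by omega⟩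
      exact ZMod.neg_one_ne_one
    · rw [h1]
      rcases neg_one_pow_eq_or (ZMod q) n with e | e <;> rw [e]
      · convert hs using 1; linear_combination 2 * h
      · convert hs using 1; linear_combination (-2) * h

theorem density : Tendsto (fun x : ℕ => (Set.ncard {c : ℕ | c ≤ x ∧ c.Prime ∧
      ¬ ∀ b : ℕ, 1 ≤ b → b ∣ c - 1 → ∃ l ≤ 2, ∃ q : ℕ, IsQRC c b l {q}} : ℝ) /
    Nat.primeCounting x) atTop (𝓝 0) := by
  classical
  rw [Metric.tendsto_nhds]
  intro ε hε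
  have hlog : Tendsto (fun x : ℕ => Real.log x) atTop atTop :=
    Real.tendsto_log_atTop.comp tendsto_natCast_atTop_atTop
  filter_upwards [count_bad (ε := ε / 7) (by positivity), pi_lower, hlog.eventually_gt_atTop 0,
    eventually_gt_atTop 0] with x h1 h2 h3 h4
  set N := {c : ℕ | c ≤ x ∧ c.Prime ∧
      ¬ ∀ b : ℕ, 1 ≤ b → b ∣ c - 1 → ∃ l ≤ 2, ∃ q : ℕ, IsQRC c b l {q}} with hN
  have hfin : N.Finite := (Set.finite_le_nat x).subset fun c hc => hc.1
  have h5 := h1 hfin.toFinset fun c hc => by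
    obtain ⟨a1, a2, a3⟩ := hfin.mem_toFinset.1 hc
    push Not at a3
    obtain ⟨b, b1, ⟨a, ha⟩, b3⟩ := a3
    have h2 := a2.two_le
    have hab : a * b + 1 = c := by rw [mul_comm, ← ha]; omega
    have ha0 : 0 < a := Nat.pos_of_ne_zero (by rintro rfl; omega)
    subst hab
    refine ⟨a1, a, b, ha0, b1, rfl, a2, fun q hq h8 hne h => ?_⟩
    obtain ⟨l, hl, hc⟩ := cover b1 a2 hq h8 hne h
    exact b3 l hl q hc
  rw [← Set.ncard_eq_toFinset_card N hfin] at h5
  have h6 : (0 : ℝ) < x / Real.log x := div_pos (by exact_mod_cast h4) h3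
  have h7 : (0 : ℝ) < Nat.primeCounting x := by linarith
  rw [Real.dist_eq, sub_zero, abs_of_nonneg (by positivity), div_lt_iff₀ h7]
  nlinarith

end Pool.Agent.P.MP_74dd9d_nt
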