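import Mathlib

namespace Pool.Agent.P.MP_74dd9d_nt

/-- `Δ_n(c, b) = (b c^n + (c - 1) / b)^2 + 4 c^n`. -/
def Delta (c b n : ℕ) : ℤ :=
  ((b : ℤ) * (c : ℤ) ^ n + (((c - 1) / b : ℕ) : ℤ)) ^ 2 + 4 * (c : ℤ) ^ n

/-- `C` is an `l`-QRC for the family `Δ_n(c, b)`: a finite set of primes, `l` is the least positive
exponent with `c ^ l = 1` modulo all `q ∈ C`, and for each `n` some `q ∈ C` has Kronecker symbol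
`(Δ_n / q) ≠ -1`. -/
def IsQRC (c b l : ℕ) (C : Finset ℕ) : Prop :=
  (∀ q ∈ C, q.Prime) ∧ 0 < l ∧ (∀ q ∈ C, c ^ l ≡ 1 [MOD q]) ∧
    (∀ m : ℕ, 0 < m → m < l → ∃ q ∈ C, ¬ (c ^ m ≡ 1 [MOD q])) ∧
    ∀ n : ℕ, ∃ q ∈ C, (q = 2 ∧ Delta c b n % 8 ≠ 3 ∧ Delta c b n % 8 ≠ 5) ∨
      (q ≠ 2 ∧ jacobiSym (Delta c b n) q ≠ -1)

end Pool.Agent.P.MP_74dd9d_nt
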