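import Pool.Agent.P.MP_74dd9d_nt.Mertens
import Pool.Agent.P.MP_74dd9d_nt.Sieve2

/-! Divergence of the reciprocals of primes congruent to one. -/

namespace Pool.Agent.P.MP_74dd9d_nt

open Finset Filter Topology ArithmeticFunction ArithmeticFunction.vonMangoldt

lemma not_summable_ap (m : ℕ) [NeZero m] :
    ¬ Summable fun n : ℕ => ind (n.Prime ∧ (n : ZMod m) = 1) / (n : ℝ) := by
  intro hu
  set u : ℕ → ℝ := fun n : ℕ => ind (n.Prime ∧ (n : ZMod m) = 1) / (n : ℝ) with hud
  have hv := summable_residueClass_non_primes_div (1 : ZMod m)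
  set v : ℕ → ℝ := fun n : ℕ => (if n.Prime then 0 else residueClass (1 : ZMod m) n) / n with hvd
  obtain ⟨C, hC⟩ := LSeries_residueClass_lower_bound (isUnit_one (M := ZMod m))
  set c : ℝ := (m.totient : ℝ)⁻¹ with hc
  have hc0 : 0 < c := by
    have : 0 < m.totient := Nat.totient_pos.2 (NeZero.pos m)
    positivity
  obtain ⟨Y, hY⟩ := ((tendsto_sum_nat_add u).eventually (gt_mem_nhds (half_pos hc0))).exists
  set K := ∑ n ∈ range Y, vonMangoldt n + ∑' n, v (n + Y) + C with hK
  have key : ∀ s : ℝ, 0 < s → s ≤ 1 → c / s ≤ K + c / 2 / s := by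
    intro s hs hs1
    have h1 := hC (x := 1 + s) ⟨by linarith, by linarith⟩
    rw [add_sub_cancel_left] at h1
    have h2 : ∀ n : ℕ, residueClass (1 : ZMod m) n / (n : ℝ) ^ (1 + s) ≤ v n + u n / s := by
      intro n
      rcases Nat.eq_zero_or_pos n with rfl | hn
      · simp [hvd, hud]
      have hn' : (1 : ℝ) ≤ n := by exact_mod_cast hn
      have h3 : 1 ≤ (n : ℝ) ^ s := Real.one_le_rpow hn' hs.le
      rw [Real.rpow_add (by linarith), Real.rpow_one]
      by_cases hp : n.Prime
      · by_cases ha : (n : ZMod m) = 1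
        · have h4 := Real.log_le_rpow_div (x := n) (by linarith) hs
          have h5 := residueClass_le (1 : ZMod m) n
          rw [vonMangoldt_apply_prime hp] at h5
          simp only [hvd, hud, hp, ha, ind, if_true, and_self, zero_div, zero_add]
          rw [div_le_iff₀ (by positivity)]
          refine (h5.trans h4).trans (le_of_eq ?_)
          field_simp
        · simp [hvd, hud, hp, ha, ind]
      · simp only [hvd, hud, hp, ind, if_false, false_and, zero_div, add_zero]
        exact div_le_div_of_nonneg_left (residueClass_nonneg _ _) (by linarith) (by nlinarith)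
    have h0 : ∀ n : ℕ, 0 ≤ residueClass (1 : ZMod m) n / (n : ℝ) ^ (1 + s) := fun n =>
      div_nonneg (residueClass_nonneg _ _) (by positivity)
    have hsum : Summable fun n => v n + u n / s := hv.add (hu.div_const s)
    have hs2 := Summable.of_nonneg_of_le h0 h2 hsum
    rw [← hs2.sum_add_tsum_nat_add Y] at h1
    have h4 : ∑ n ∈ range Y, residueClass (1 : ZMod m) n / (n : ℝ) ^ (1 + s) ≤
        ∑ n ∈ range Y, vonMangoldt n := by
      refine sum_le_sum fun n _ => ?_
      rcases Nat.eq_zero_or_pos n with rfl | hn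
      · simp
      have hn' : (1 : ℝ) ≤ n := by exact_mod_cast hn
      exact (div_le_self (residueClass_nonneg _ _) (Real.one_le_rpow hn' (by linarith))).trans
        (residueClass_le _ _)
    have h5 := Summable.tsum_le_tsum (fun n => h2 (n + Y)) ((summable_nat_add_iff Y).2 hs2)
      ((summable_nat_add_iff Y).2 hsum)
    rw [Summable.tsum_add ((summable_nat_add_iff Y).2 hv)
      (((summable_nat_add_iff Y).2 hu).div_const s), tsum_div_const] at h5
    have h6 : (∑' n, u (n + Y)) / s ≤ c / 2 / s := div_le_div_of_nonneg_right hY.le hs.le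
    linarith
  have h1 := key (c / (c + 4 * |K|)) (by positivity) (by
    rw [div_le_one (by positivity)]; linarith [abs_nonneg K])
  have h2 : c / (c / (c + 4 * |K|)) = c + 4 * |K| := by field_simp
  have h3 : c / 2 / (c / (c + 4 * |K|)) = (c + 4 * |K|) / 2 := by field_simp
  rw [h2, h3] at h1
  linarith [le_abs_self K, abs_nonneg K]

lemma eventually_ap (m : ℕ) [NeZero m] (K : ℕ) (M : ℝ) :
    ∀ᶠ t : ℝ in atTop, M ≤ ∑ q ∈ Pr t \ range K, ind ((q : ZMod m) = 1) / (q : ℝ) := by
  have h0 : ∀ n : ℕ, 0 ≤ ind (n.Prime ∧ (n : ZMod m) = 1) / (n : ℝ) := fun n =>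
    div_nonneg (ind_01 _).1 (by positivity)
  have h1 := (not_summable_iff_tendsto_nat_atTop_of_nonneg h0).1 (not_summable_ap m)
  have h2 : Tendsto (fun t : ℝ => ⌊Real.exp t⌋₊ + 1) atTop atTop :=
    (tendsto_add_atTop_nat 1).comp (tendsto_nat_floor_atTop.comp Real.tendsto_exp_atTop)
  filter_upwards [(h1.comp h2).eventually_ge_atTop (M + K)] with t ht
  simp only [Function.comp] at ht
  have h3 : ∑ n ∈ range (⌊Real.exp t⌋₊ + 1), ind (n.Prime ∧ (n : ZMod m) = 1) / (n : ℝ) =
      ∑ n ∈ Pr t, ind ((n : ZMod m) = 1) / (n : ℝ) := by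
    rw [Pr, Nat.primesLE_eq_filter_range, sum_filter]
    refine sum_congr rfl fun n _ => ?_
    by_cases hp : n.Prime
    · simp only [hp, true_and, if_true]
    · simp [ind, hp]
  rw [h3, ← sum_sdiff (inter_subset_left (s₂ := range K)), sdiff_inter_self_left] at ht
  have h4 : ∑ n ∈ Pr t ∩ range K, ind ((n : ZMod m) = 1) / (n : ℝ) ≤ K := by
    calc _ ≤ ∑ _n ∈ Pr t ∩ range K, (1 : ℝ) := sum_le_sum fun n hn => by
          have : (1 : ℝ) ≤ n := by exact_mod_cast (mem_Pr.1 (mem_inter.1 hn).1).2.one_le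
          rw [div_le_one (by linarith)]
          linarith [(ind_01 ((n : ZMod m) = 1)).2]
      _ ≤ K := by
          simpa using (card_le_card inter_subset_right).trans (card_range K).le
  linarith

end Pool.Agent.P.MP_74dd9d_nt
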