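import Pool.Agent.P.MP_74dd9d_nt.PM

/-! A two level Selberg sieve. -/

namespace Pool.Agent.P.MP_74dd9d_nt

open Finset

/-- Sets of primes with product at most `D`. -/
noncomputable def DD (P : Finset ℕ) (D : ℝ) : Finset (Finset ℕ) :=
  P.powerset.filter fun d => ((∏ q ∈ d, q : ℕ) : ℝ) ≤ D

/-- Truncated Euler product. -/
noncomputable def GG (P : Finset ℕ) (D : ℝ) (h : ℕ → ℝ) : ℝ := ∑ d ∈ DD P D, ∏ q ∈ d, h q

lemma mem_DD {P d : Finset ℕ} {D : ℝ} : d ∈ DD P D ↔ d ⊆ P ∧ ((∏ q ∈ d, q : ℕ) : ℝ) ≤ D := by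
  simp only [DD, mem_filter, mem_powerset]

lemma card_DD {P : Finset ℕ} (hP : ∀ q ∈ P, q.Prime) {D : ℝ} (hD : 0 ≤ D) :
    ((DD P D).card : ℝ) ≤ D := by
  have h1 : (DD P D).card ≤ (Icc 1 ⌊D⌋₊).card := by
    refine card_le_card_of_injOn (fun d => ∏ q ∈ d, q) ?_ ?_
    · intro d hd
      obtain ⟨h1, h2⟩ := mem_DD.1 hd
      simp only [coe_Icc, Set.mem_Icc]
      exact ⟨prod_pos fun q hq => (hP q (h1 hq)).pos, Nat.le_floor h2⟩
    · intro d hd e he hde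
      have h1 := Nat.primeFactors_prod (s := d) fun q hq => hP q ((mem_DD.1 hd).1 hq)
      have h2 := Nat.primeFactors_prod (s := e) fun q hq => hP q ((mem_DD.1 he).1 hq)
      simp only at hde
      rw [← h1, ← h2, hde]
  simp only [Nat.card_Icc, add_tsub_cancel_right] at h1
  exact (Nat.cast_le.2 h1).trans (Nat.floor_le hD)

lemma one_le_GG {P : Finset ℕ} {D : ℝ} (hD : 1 ≤ D) {h : ℕ → ℝ} (hh : ∀ q ∈ P, 0 ≤ h q) :
    1 ≤ GG P D h := by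
  have h0 : (∅ : Finset ℕ) ∈ DD P D := mem_DD.2 ⟨empty_subset _, by simpa using hD⟩
  have := single_le_sum (f := fun d => ∏ q ∈ d, h q)
    (fun d hd => prod_nonneg fun q hq => hh q ((mem_DD.1 hd).1 hq)) h0
  simpa [GG] using this

lemma markov_aux (P : Finset ℕ) (h l : ℕ → ℝ) (hh : ∀ q ∈ P, 0 ≤ h q) (hl : ∀ q ∈ P, 0 ≤ l q) :
    ∑ d ∈ P.powerset, (∏ q ∈ d, h q) * ∑ q ∈ d, l q ≤
      (∏ q ∈ P, (1 + h q)) * ∑ q ∈ P, h q * l q := by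
  induction P using Finset.induction_on with
  | empty => simp
  | insert r P hr ih =>
    have ih := ih (fun q hq => hh q (mem_insert_of_mem hq)) fun q hq => hl q (mem_insert_of_mem hq)
    have hr0 := hh r (mem_insert_self _ _)
    have hl0 := hl r (mem_insert_self _ _)
    rw [sum_powerset_insert hr, prod_insert hr, sum_insert hr]
    have h1 : ∑ d ∈ P.powerset, (∏ q ∈ insert r d, h q) * ∑ q ∈ insert r d, l q =
        h r * l r * ∏ q ∈ P, (1 + h q) +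
          h r * ∑ d ∈ P.powerset, (∏ q ∈ d, h q) * ∑ q ∈ d, l q := by
      rw [prod_one_add, mul_sum, mul_sum, ← sum_add_distrib]
      refine sum_congr rfl fun d hd => ?_
      have : r ∉ d := fun e => hr (mem_powerset.1 hd e)
      rw [prod_insert this, sum_insert this]; ring
    rw [h1]
    have hW : 0 ≤ ∏ q ∈ P, (1 + h q) :=
      prod_nonneg fun q hq => by linarith [hh q (mem_insert_of_mem hq)]
    have h2 := mul_le_mul_of_nonneg_left ih hr0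
    have h3 : 0 ≤ h r * (h r * l r * ∏ q ∈ P, (1 + h q)) := by positivity
    nlinarith

lemma markov {P : Finset ℕ} (hP : ∀ q ∈ P, q.Prime) {D : ℝ} (hD : 1 < D) {h : ℕ → ℝ}
    (hh : ∀ q ∈ P, 0 ≤ h q) (hs : 2 * ∑ q ∈ P, h q * Real.log q ≤ Real.log D) :
    ∏ q ∈ P, (1 + h q) ≤ 2 * GG P D h := by
  have h1 := markov_aux P h (fun q => Real.log q) hh fun q _ => Real.log_natCast_nonneg q
  have hL := Real.log_pos hD
  set W := ∏ q ∈ P, (1 + h q) with hWd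
  have hW : 0 ≤ W := prod_nonneg fun q hq => by linarith [hh q hq]
  have h2 : W = GG P D h + ∑ d ∈ P.powerset.filter
      (fun d => ¬ ((∏ q ∈ d, q : ℕ) : ℝ) ≤ D), ∏ q ∈ d, h q := by
    rw [hWd, prod_one_add, GG, DD, sum_filter_add_sum_filter_not]
  have h3 : (∑ d ∈ P.powerset.filter (fun d => ¬ ((∏ q ∈ d, q : ℕ) : ℝ) ≤ D), ∏ q ∈ d, h q) *
      Real.log D ≤ ∑ d ∈ P.powerset, (∏ q ∈ d, h q) * ∑ q ∈ d, Real.log q := by
    rw [sum_mul]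
    refine le_trans (sum_le_sum fun d hd => ?_) (sum_le_sum_of_subset_of_nonneg (filter_subset _ _)
      fun d hd _ => mul_nonneg (prod_nonneg fun q hq => hh q (mem_powerset.1 hd hq))
        (sum_nonneg fun q _ => Real.log_natCast_nonneg q))
    obtain ⟨hd1, hd2⟩ := mem_filter.1 hd
    refine mul_le_mul_of_nonneg_left ?_ (prod_nonneg fun q hq => hh q (mem_powerset.1 hd1 hq))
    rw [← Real.log_prod fun q hq => by exact_mod_cast (hP q (mem_powerset.1 hd1 hq)).ne_zero]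
    push_cast at hd2
    exact Real.log_le_log (by linarith) (not_le.1 hd2).le
  have h4 : W * ∑ q ∈ P, h q * Real.log q ≤ W * (Real.log D / 2) :=
    mul_le_mul_of_nonneg_left (by linarith) hW
  have h5 : (W - GG P D h) * Real.log D ≤ W / 2 * Real.log D := by
    rw [sub_eq_of_eq_add' h2]
    linarith
  have := le_of_mul_le_mul_right h5 hL
  linarith

lemma GG_sq (P : Finset ℕ) (D : ℝ) (φ : ℕ → ℝ) :
    GG P D φ ^ 2 = ∑ z ∈ DD P D ×ˢ DD P D, pr φ (fun q => φ q ^ 2) z.1 z.2 := by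
  rw [sq, GG, sum_mul_sum, sum_product]
  simp only [pr_sq]

lemma sum_pr_orth (P : Finset ℕ) (D : ℝ) (h : ℕ → ℝ) :
    ∑ z ∈ DD P D ×ˢ DD P D, pr (fun _ => 0) h z.1 z.2 = GG P D h := by
  rw [sum_product, GG]
  refine sum_congr rfl fun d hd => ?_
  simp only [pr_orth]
  rw [sum_ite_eq, if_pos hd]

lemma mod_le {P : Finset ℕ} (hP : ∀ q ∈ P, q.Prime) {D : ℝ} {z : Finset ℕ × Finset ℕ}
    (hz : z ∈ DD P D ×ˢ DD P D) : z.1 ∪ z.2 ⊆ P ∧ ((∏ q ∈ z.1 ∪ z.2, q : ℕ) : ℝ) ≤ D ^ 2 := by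
  obtain ⟨h1, h2⟩ := mem_product.1 hz
  obtain ⟨a1, a2⟩ := mem_DD.1 h1
  obtain ⟨b1, b2⟩ := mem_DD.1 h2
  refine ⟨union_subset a1 b1, ?_⟩
  have h3 : ∏ q ∈ z.1 ∪ z.2, q ≤ (∏ q ∈ z.1, q) * ∏ q ∈ z.2, q := by
    rw [← prod_union_inter]
    exact Nat.le_mul_of_pos_right _ (prod_pos fun q hq => (hP q (a1 (mem_inter.1 hq).1)).pos)
  calc ((∏ q ∈ z.1 ∪ z.2, q : ℕ) : ℝ) ≤ ((∏ q ∈ z.1, q : ℕ) : ℝ) * ((∏ q ∈ z.2, q : ℕ) : ℝ) := by
        exact_mod_cast h3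
    _ ≤ D * D := mul_le_mul a2 b2 (by positivity) (le_trans (by positivity) a2)
    _ = D ^ 2 := by ring

lemma card_DD2 {P : Finset ℕ} (hP : ∀ q ∈ P, q.Prime) {D : ℝ} (hD : 0 ≤ D) :
    ((DD P D ×ˢ DD P D).card : ℝ) ≤ D ^ 2 := by
  rw [card_product]; push_cast
  have := card_DD hP hD
  rw [sq]
  exact mul_le_mul this this (by positivity) hD

/-- The inner sum for a fixed second variable. -/
lemma sieve_inner {P1 P2 : Finset ℕ} (hP1 : ∀ q ∈ P1, q.Prime) (hP2 : ∀ q ∈ P2, q.Prime)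
    (hd : Disjoint P1 P2) {D1 D2 : ℝ} (hD1 : 0 ≤ D1) (hD2 : 0 ≤ D2) (φ : ℕ → ℕ → ℝ)
    (μ ν h : ℕ → ℝ) (H1 : ∀ q ∈ P1, PM q (φ q) (μ q) ∧ PM q (fun a => φ q a ^ 2) (ν q))
    (H2 : ∀ q ∈ P2, PM q (φ q) 0 ∧ PM q (fun a => φ q a ^ 2) (h q)) (A : ℕ) :
    ∑ a ∈ range A, (GG P1 D1 (fun q => φ q a) * GG P2 D2 fun q => φ q a) ^ 2 ≤
      A * (∑ z ∈ DD P1 D1 ×ˢ DD P1 D1, pr μ ν z.1 z.2) * GG P2 D2 h + 2 * D1 ^ 4 * D2 ^ 4 := by
  have key : ∀ z ∈ DD P1 D1 ×ˢ DD P1 D1, ∀ w ∈ DD P2 D2 ×ˢ DD P2 D2,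
      ∑ a ∈ range A, pr (fun q => φ q a) (fun q => φ q a ^ 2) z.1 z.2 *
        pr (fun q => φ q a) (fun q => φ q a ^ 2) w.1 w.2 ≤
      A * (pr μ ν z.1 z.2 * pr (fun _ => 0) h w.1 w.2) + 2 * (D1 ^ 2 * D2 ^ 2) := by
    intro z hz w hw
    obtain ⟨z1, z2⟩ := mod_le hP1 hz
    obtain ⟨w1, w2⟩ := mod_le hP2 hw
    have p1 := PM.pair (fun q hq => hP1 q (z1 hq)) (fun q hq => (H1 q (z1 hq)).1)
      fun q hq => (H1 q (z1 hq)).2
    have p2 := PM.pair (μ := fun _ => 0) (fun q hq => hP2 q (w1 hq)) (fun q hq => (H2 q (w1 hq)).1)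
      fun q hq => (H2 q (w1 hq)).2
    have hc : Nat.Coprime (∏ q ∈ z.1 ∪ z.2, q) (∏ q ∈ w.1 ∪ w.2, q) := by
      refine Nat.Coprime.prod_left fun q hq => Nat.Coprime.prod_right fun r hr => ?_
      exact (Nat.coprime_primes (hP1 q (z1 hq)) (hP2 r (w1 hr))).2
        fun e => disjoint_left.1 hd (z1 hq) (e ▸ w1 hr)
    have p3 := (p1.mul p2 hc).approx 0 A
    simp only [zero_add] at p3
    refine p3.trans ?_
    have := mul_le_mul z2 w2 (by positivity) (by positivity)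
    rw [Nat.cast_mul]
    linarith
  simp only [mul_pow, GG_sq, sum_mul_sum]
  rw [sum_comm]
  have h1 : ∀ z ∈ DD P1 D1 ×ˢ DD P1 D1, ∑ a ∈ range A, ∑ w ∈ DD P2 D2 ×ˢ DD P2 D2,
      pr (fun q => φ q a) (fun q => φ q a ^ 2) z.1 z.2 *
        pr (fun q => φ q a) (fun q => φ q a ^ 2) w.1 w.2 ≤
      A * pr μ ν z.1 z.2 * GG P2 D2 h + 2 * D1 ^ 2 * D2 ^ 4 := by
    intro z hz
    rw [sum_comm]
    refine (sum_le_sum (key z hz)).trans ?_
    rw [sum_add_distrib, ← mul_sum, ← mul_sum, sum_pr_orth, sum_const, nsmul_eq_mul]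
    have := mul_le_mul_of_nonneg_right (card_DD2 hP2 hD2)
      (show 0 ≤ 2 * (D1 ^ 2 * D2 ^ 2) by positivity)
    linarith
  refine (sum_le_sum h1).trans ?_
  rw [sum_add_distrib, ← sum_mul, ← mul_sum, sum_const, nsmul_eq_mul]
  have := mul_le_mul_of_nonneg_right (card_DD2 hP1 hD1)
    (show 0 ≤ 2 * D1 ^ 2 * D2 ^ 4 by positivity)
  linarith

theorem sieve_core {P1 P2 : Finset ℕ} (hP1 : ∀ q ∈ P1, q.Prime) (hP2 : ∀ q ∈ P2, q.Prime)
    (hd : Disjoint P1 P2) {D1 D2 : ℝ} (hD1 : 0 ≤ D1) (hD2 : 1 ≤ D2) (φ : ℕ → ℕ → ℕ → ℝ)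
    (μ ν : ℕ → ℕ → ℝ) (h : ℕ → ℝ) (A B n : ℕ)
    (H1 : ∀ q ∈ P1, ∀ b, PM q (fun a => φ q a b) (μ q b) ∧ PM q (fun a => φ q a b ^ 2) (ν q b))
    (H1' : ∀ q ∈ P1, PM q (μ q) 0 ∧ PM q (ν q) (h q))
    (H2 : ∀ q ∈ P2, ∀ i < n, PM q (fun a => φ q a (B + i)) 0 ∧
      PM q (fun a => φ q a (B + i) ^ 2) (h q))
    (hh : ∀ q ∈ P2, 0 ≤ h q) :
    ∑ i ∈ range n, ∑ a ∈ range A,
        (GG P1 D1 (fun q => φ q a (B + i)) * GG P2 D2 fun q => φ q a (B + i)) ^ 2 ≤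
      A * GG P2 D2 h * (n * GG P1 D1 h + 2 * D1 ^ 4) + 2 * n * D1 ^ 4 * D2 ^ 4 := by
  have h1 := sum_le_sum fun i (hi : i ∈ range n) =>
    sieve_inner hP1 hP2 hd hD1 (by linarith : 0 ≤ D2) (fun q a => φ q a (B + i))
      (fun q => μ q (B + i)) (fun q => ν q (B + i)) h (fun q hq => H1 q hq _)
      (fun q hq => H2 q hq i (mem_range.1 hi)) A
  refine h1.trans ?_
  rw [sum_add_distrib, ← sum_mul, ← mul_sum, sum_const, card_range, nsmul_eq_mul, sum_comm]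
  have h2 : ∑ z ∈ DD P1 D1 ×ˢ DD P1 D1, ∑ i ∈ range n,
      pr (fun q => μ q (B + i)) (fun q => ν q (B + i)) z.1 z.2 ≤ n * GG P1 D1 h + 2 * D1 ^ 4 := by
    have key : ∀ z ∈ DD P1 D1 ×ˢ DD P1 D1, ∑ i ∈ range n,
        pr (fun q => μ q (B + i)) (fun q => ν q (B + i)) z.1 z.2 ≤
          n * pr (fun _ => 0) h z.1 z.2 + 2 * D1 ^ 2 := by
      intro z hz
      obtain ⟨z1, z2⟩ := mod_le hP1 hz
      have p1 := (PM.pair (μ := fun _ => 0) (fun q hq => hP1 q (z1 hq))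
        (fun q hq => (H1' q (z1 hq)).1) fun q hq => (H1' q (z1 hq)).2).approx B n
      linarith
    refine (sum_le_sum key).trans ?_
    rw [sum_add_distrib, ← mul_sum, sum_pr_orth, sum_const, nsmul_eq_mul]
    have := mul_le_mul_of_nonneg_right (card_DD2 hP1 hD1) (show 0 ≤ 2 * D1 ^ 2 by positivity)
    linarith
  have h3 := one_le_GG hD2 hh
  have h4 := mul_le_mul_of_nonneg_left h2 (show 0 ≤ A * GG P2 D2 h by positivity)
  linarith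

end Pool.Agent.P.MP_74dd9d_nt
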